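import Pool.Agent.R832.Frontier.Fam

set_option autoImplicit false

open MvPolynomial

namespace Pool.Agent.R832.Frontier

variable {K : Type*} [Field K]

instance finite_homog (i : ℕ) : Module.Finite K (homogeneousSubmodule (Fin 3) K i) :=
  Module.Finite.iff_fg.mpr (homogeneousSubmodule_fg (Fin 3) K i)

instance finite_piece (I : Ideal (MvPolynomial (Fin 3) K)) (i : ℕ) :
    Module.Finite K (Piece I i) := inferInstance

instance free_piece (I : Ideal (MvPolynomial (Fin 3) K)) (i : ℕ) :
    Module.Free K (Piece I i) := Module.Free.of_divisionRing _ _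

lemma rk_add_nul {V W : Type*} [AddCommGroup V] [Module K V] [AddCommGroup W] [Module K W]
    [FiniteDimensional K V] (φ : V →ₗ[K] W) : rk φ + nul φ = Module.finrank K V :=
  LinearMap.finrank_range_add_finrank_ker φ

lemma mulX_mk (I : Ideal (MvPolynomial (Fin 3) K)) (a : Fin 3) (i : ℕ)
    (f : homogeneousSubmodule (Fin 3) K i) :
    mulX I a i (Submodule.Quotient.mk f) = Submodule.Quotient.mk (hmul a i f) := rfl

lemma mulX_mk_eq_zero (I : Ideal (MvPolynomial (Fin 3) K)) (a : Fin 3) (i : ℕ)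
    (f : homogeneousSubmodule (Fin 3) K i) :
    mulX I a i (Submodule.Quotient.mk f) = 0 ↔ X a * f.1 ∈ I := by
  rw [mulX_mk, Submodule.Quotient.mk_eq_zero]
  rfl

lemma finrank_pi3 (I : Ideal (MvPolynomial (Fin 3) K)) (i : ℕ) :
    Module.finrank K (Cube I i) = 3 * Module.finrank K (Piece I i) := by
  rw [Module.finrank_pi_fintype]; simp

section PQ
variable (i : ℕ) (P : Submodule K (homogeneousSubmodule (Fin 3) K i))
  (Q : Submodule K (homogeneousSubmodule (Fin 3) K (i + 1))) (h : ∀ a, P ≤ Q.comap (hmul a i))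

noncomputable def mulPQ (a : Fin 3) :
    (homogeneousSubmodule (Fin 3) K i ⧸ P) →ₗ[K] (homogeneousSubmodule (Fin 3) K (i + 1) ⧸ Q) :=
  Submodule.mapQ _ _ (hmul a i) (h a)

noncomputable def gradPQ :
    (homogeneousSubmodule (Fin 3) K i ⧸ P) →ₗ[K]
      (Fin 3 → homogeneousSubmodule (Fin 3) K (i + 1) ⧸ Q) :=
  LinearMap.pi fun a => mulPQ i P Q h a

noncomputable def curlPQ :
    (Fin 3 → homogeneousSubmodule (Fin 3) K i ⧸ P) →ₗ[K]
      (Fin 3 → homogeneousSubmodule (Fin 3) K (i + 1) ⧸ Q) :=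
  LinearMap.pi fun a => (mulPQ i P Q h (a + 1)).comp (LinearMap.proj (a + 2)) -
    (mulPQ i P Q h (a + 2)).comp (LinearMap.proj (a + 1))

noncomputable def divPQ :
    (Fin 3 → homogeneousSubmodule (Fin 3) K i ⧸ P) →ₗ[K]
      (homogeneousSubmodule (Fin 3) K (i + 1) ⧸ Q) :=
  ∑ a : Fin 3, (mulPQ i P Q h a).comp (LinearMap.proj a)
end PQ

lemma ranks_eq_of_part_eq (I I' : Ideal (MvPolynomial (Fin 3) K)) (i : ℕ)
    (h0 : part I i = part I' i) (h1 : part I (i + 1) = part I' (i + 1)) :
    rk (grad I i) = rk (grad I' i) ∧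
    rk (curl I i) = rk (curl I' i) ∧
    rk (div I i) = rk (div I' i) := by
  have key : ∀ (P P' : Submodule K (homogeneousSubmodule (Fin 3) K i))
      (Q Q' : Submodule K (homogeneousSubmodule (Fin 3) K (i + 1)))
      (h : ∀ a, P ≤ Q.comap (hmul a i)) (h' : ∀ a, P' ≤ Q'.comap (hmul a i))
      (_ : P = P') (_ : Q = Q'),
      rk (gradPQ i P Q h) =
        rk (gradPQ i P' Q' h') ∧
      rk (curlPQ i P Q h) =
        rk (curlPQ i P' Q' h') ∧
      rk (divPQ i P Q h) =
        rk (divPQ i P' Q' h') := by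
    rintro P _ Q _ h h' rfl rfl
    exact ⟨rfl, rfl, rfl⟩
  exact key _ _ _ _ (fun a f hf => Ideal.mul_mem_left I (X a) hf)
    (fun a f hf => Ideal.mul_mem_left I' (X a) hf) h0 h1

lemma betti_congr (I I' : Ideal (MvPolynomial (Fin 3) K))
    (hT : ∀ i, Module.finrank K (Piece I i) = Module.finrank K (Piece I' i))
    (hr : ∀ i,
      rk (grad I i) =
        rk (grad I' i) ∧
      rk (curl I i) =
        rk (curl I' i) ∧
      rk (div I i) =
        rk (div I' i)) (p s : ℕ) :
    betti I p s = betti I' p s := by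
  have hT3 : ∀ i, Module.finrank K (Cube I i) = Module.finrank K (Cube I' i) := by
    intro i
    rw [finrank_pi3, finrank_pi3, hT i]
  have hg : ∀ i, nul (grad I i) =
      nul (grad I' i) := by
    intro i
    have h1 := rk_add_nul (grad I i)
    have h2 := rk_add_nul (grad I' i)
    have := (hr i).1
    have := hT i
    omega
  have hc : ∀ i, nul (curl I i) =
      nul (curl I' i) := by
    intro i
    have h1 := rk_add_nul (curl I i)
    have h2 := rk_add_nul (curl I' i)
    have := (hr i).2.1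
    have := hT3 i
    omega
  have hd : ∀ i, nul (div I i) =
      nul (div I' i) := by
    intro i
    have h1 := rk_add_nul (div I i)
    have h2 := rk_add_nul (div I' i)
    have := (hr i).2.2
    have := hT3 i
    omega
  rcases p with _ | _ | _ | _ | p
  · rcases s with _ | s
    · exact hT 0
    · simp only [betti]; rw [hT, (hr s).2.2]
  · rcases s with _ | s
    · exact hd 0
    · simp only [betti]; rw [hd, (hr s).2.1]
  · rcases s with _ | s
    · exact hc 0
    · simp only [betti]; rw [hc, (hr s).1]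
  · rcases s with _ | s
    · exact hg 0
    · exact hg _
  · rfl

lemma ker_eq_bot_iff_piece (I : Ideal (MvPolynomial (Fin 3) K)) (i : ℕ) :
    LinearMap.ker (grad I i) = ⊥ ↔ ∀ f ∈ homogeneousSubmodule (Fin 3) K i,
      (∀ a, X a * f ∈ I) → f ∈ I := by
  rw [LinearMap.ker_eq_bot']
  constructor
  · intro h f hf hX
    have := h (Submodule.Quotient.mk ⟨f, hf⟩) (by
      funext a
      exact (mulX_mk_eq_zero I a i ⟨f, hf⟩).mpr (hX a))
    rw [Submodule.Quotient.mk_eq_zero] at this
    exact this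
  · intro h m
    induction m using Submodule.Quotient.induction_on with
    | _ f =>
      intro hf
      rw [Submodule.Quotient.mk_eq_zero]
      refine h f.1 f.2 (fun a => ?_)
      have h2 : mulX I a i (Submodule.Quotient.mk f) = 0 := congrFun hf a
      exact (mulX_mk_eq_zero I a i f).mp h2

lemma betti_three (I : Ideal (MvPolynomial (Fin 3) K)) (s : ℕ) :
    betti I 3 s = nul (grad I s) := by
  rcases s with _ | s <;> rfl

lemma betti_three_eq_zero_iff (I : Ideal (MvPolynomial (Fin 3) K)) (i : ℕ) :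
    betti I 3 i = 0 ↔ ∀ f ∈ homogeneousSubmodule (Fin 3) K i,
      (∀ a, X a * f ∈ I) → f ∈ I := by
  rw [betti_three, nul, Submodule.finrank_eq_zero, ker_eq_bot_iff_piece]

/-- `β_{3,4} (I_t) = 0` for `t ≠ 0`. -/
lemma betti_It_one {k : ℕ} (hk : 3 ≤ k) {t : K} (ht : t ≠ 0) : betti (It k t) 3 1 = 0 := by
  rw [betti_three_eq_zero_iff]
  intro f hf hX
  rw [It, mem_Fam_one (by omega) (by omega) hf]
  have hx := (hX 0).2.2.1 0 (by omega)
  have hy1 := (hX 1).2.1 1 (by omega)
  have hy2 := (hX 1).2.2.1 0 (by omega)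
  have e1 := coeff_x_zero 0 2 f
  have e2 := coeff_x_succ 0 (0 + 1) 0 f
  have e3 := coeff_y_succ 0 0 1 f
  have e4 := coeff_y_zero 0 2 f
  have e5 := coeff_y_succ 1 0 0 f
  simp only [zero_add] at *
  refine ⟨?_, ?_, ?_⟩
  · rw [e1, e2, zero_add] at hx
    exact (mul_eq_zero.mp hx).resolve_left ht
  · rw [← e3]; exact hy1
  · rw [e4, e5, zero_add] at hy2
    exact (mul_eq_zero.mp hy2).resolve_left ht

/-- `β_{3,k+3} (I_t) ≠ 0`. -/
lemma betti_It_k {k : ℕ} (hk : 3 ≤ k) (t : K) : betti (It k t) 3 k ≠ 0 := by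
  rw [Ne, betti_three_eq_zero_iff]
  intro h
  have h1 := h (monomial (e 0 (k - 2) 2) 1) (mono_mem _ _ _ (by omega)) (fun a => ?_)
  · have := h1.2.2.1 (k - 2) (by omega)
    simp [e_inj] at this
  · have hm : (X a * monomial (e 0 (k - 2) 2) (1 : K)) ∈
        homogeneousSubmodule (Fin 3) K (k + 1) := by
      have h1 := (isHomogeneous_X K a).mul
        ((mem_homogeneousSubmodule _ _).mp (mono_mem (K := K) 0 (k - 2) 2 (i := k) (by omega)))
      rw [mem_homogeneousSubmodule]
      rwa [add_comm] at h1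
    rw [mem_It_top (by omega) hm]
    fin_cases a
    · exact coeff_x_zero _ _ _
    · have e3 := coeff_y_succ 0 (k - 1) 1 (monomial (e 0 (k - 2) 2) (1 : K))
      rw [show k - 1 + 1 = k by omega] at e3
      simp only [Fin.mk_one] at *
      rw [e3]
      simp [e_inj]
    · have e3 := coeff_z_succ 0 k 0 (monomial (e 0 (k - 2) 2) (1 : K))
      simp only [Fin.reduceFinMk, zero_add] at *
      rw [e3]
      simp [e_inj]

lemma top_ranks (I : Ideal (MvPolynomial (Fin 3) K)) (k : ℕ)
    (h1 : Module.finrank K (Piece I (k + 1)) = 1) (hx : ∀ v : Piece I k, mulX I 0 k v = 0)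
    (hyz : ∀ a b : Piece I (k + 1), ∃ v : Piece I k, mulX I 1 k v = a ∧ mulX I 2 k v = b) :
    rk (grad I k) = 2 ∧
    rk (curl I k) = 3 ∧
    rk (div I k) = 1 := by
  refine ⟨?_, ?_, ?_⟩
  · let j : (Piece I (k + 1) × Piece I (k + 1)) →ₗ[K] (Fin 3 → Piece I (k + 1)) :=
      LinearMap.pi ![0, LinearMap.fst K _ _, LinearMap.snd K _ _]
    have hj : Function.Injective j := by
      intro u v h
      exact Prod.ext (congrFun h 1) (congrFun h 2)
    have hr : LinearMap.range (grad I k) = LinearMap.range j := by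
      apply le_antisymm
      · rintro _ ⟨v, rfl⟩
        refine ⟨(mulX I 1 k v, mulX I 2 k v), ?_⟩
        funext a
        fin_cases a
        · exact (hx v).symm
        · rfl
        · rfl
      · rintro _ ⟨⟨u, w⟩, rfl⟩
        obtain ⟨v, hv1, hv2⟩ := hyz u w
        refine ⟨v, ?_⟩
        funext a
        fin_cases a
        · exact hx v
        · exact hv1
        · exact hv2
    rw [rk, hr, LinearMap.finrank_range_of_inj hj, Module.finrank_prod, h1]
  · have : LinearMap.range (curl I k) = ⊤ := by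
      rw [LinearMap.range_eq_top]
      intro w
      obtain ⟨v0, hv1, hv2⟩ := hyz (-(w 2)) (w 1)
      obtain ⟨v2, hw1, -⟩ := hyz (w 0) 0
      refine ⟨![v0, 0, v2], ?_⟩
      funext a
      fin_cases a
      · show mulX I 1 k v2 - mulX I 2 k 0 = w 0
        rw [hw1, map_zero, sub_zero]
      · show mulX I 2 k v0 - mulX I 0 k v2 = w 1
        rw [hv2, hx, sub_zero]
      · show mulX I 0 k 0 - mulX I 1 k v0 = w 2
        rw [hv1, map_zero, zero_sub, neg_neg]
    rw [rk, this, finrank_top, finrank_pi3, h1]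
  · have : LinearMap.range (div I k) = ⊤ := by
      rw [LinearMap.range_eq_top]
      intro w
      obtain ⟨v, hv1, -⟩ := hyz w 0
      refine ⟨![0, v, 0], ?_⟩
      rw [div, Fin.sum_univ_three]
      show mulX I 0 k 0 + mulX I 1 k v + mulX I 2 k 0 = w
      rw [hv1, map_zero, map_zero, zero_add, add_zero]
    rw [rk, this, finrank_top, h1]

lemma hyz_of (I : Ideal (MvPolynomial (Fin 3) K)) (k : ℕ) (ω : MvPolynomial (Fin 3) K →ₗ[K] K)
    (hω : ∀ g ∈ homogeneousSubmodule (Fin 3) K (k + 1), g ∈ I ↔ ω g = 0)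
    (m1 m2 : homogeneousSubmodule (Fin 3) K k)
    (h11 : ω (X 1 * m1.1) = 1) (h12 : ω (X 2 * m1.1) = 0)
    (h21 : ω (X 1 * m2.1) = 0) (h22 : ω (X 2 * m2.1) = 1)
    (a b : Piece I (k + 1)) :
    ∃ v : Piece I k, mulX I 1 k v = a ∧ mulX I 2 k v = b := by
  induction a using Submodule.Quotient.induction_on with
  | _ g1 =>
  induction b using Submodule.Quotient.induction_on with
  | _ g2 =>
  refine ⟨Submodule.Quotient.mk (ω g1.1 • m1 + ω g2.1 • m2), ?_, ?_⟩
  · rw [mulX_mk, Submodule.Quotient.eq]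
    refine (hω _ (Submodule.coe_mem
      ((hmul 1 k) (ω g1.1 • m1 + ω g2.1 • m2) - g1))).mpr ?_
    show ω (X 1 * (ω g1.1 • m1.1 + ω g2.1 • m2.1) - g1.1) = 0
    rw [mul_add, mul_smul_comm, mul_smul_comm, map_sub, map_add, map_smul, map_smul, h11, h21]
    simp
  · rw [mulX_mk, Submodule.Quotient.eq]
    refine (hω _ (Submodule.coe_mem
      ((hmul 2 k) (ω g1.1 • m1 + ω g2.1 • m2) - g2))).mpr ?_
    show ω (X 2 * (ω g1.1 • m1.1 + ω g2.1 • m2.1) - g2.1) = 0
    rw [mul_add, mul_smul_comm, mul_smul_comm, map_sub, map_add, map_smul, map_smul, h12, h22]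
    simp

lemma X_mul_mem {a : Fin 3} {i : ℕ} {f : MvPolynomial (Fin 3) K}
    (hf : f ∈ homogeneousSubmodule (Fin 3) K i) :
    X a * f ∈ homogeneousSubmodule (Fin 3) K (i + 1) := by
  have h1 := (isHomogeneous_X K a).mul ((mem_homogeneousSubmodule _ _).mp hf)
  rw [mem_homogeneousSubmodule]
  rwa [add_comm] at h1

lemma top_ranks_It {k : ℕ} (hk : 3 ≤ k) :
    rk (grad (It k (0 : K)) k) = 2 ∧
    rk (curl (It k (0 : K)) k) = 3 ∧
    rk (div (It k (0 : K)) k) = 1 := by
  apply top_ranks
  · rw [finrank_It (by omega)]; simp [T]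
  · intro v
    induction v using Submodule.Quotient.induction_on with
    | _ f =>
    rw [mulX_mk_eq_zero, mem_It_top (by omega) (X_mul_mem f.2)]
    exact coeff_x_zero _ _ _
  · refine hyz_of _ k (lcoeff K (e 0 k 1)) (fun g hg => ?_)
      ⟨monomial (e 0 (k - 1) 1) 1, mono_mem _ _ _ (by omega)⟩
      ⟨monomial (e 0 k 0) 1, mono_mem _ _ _ (by omega)⟩ ?_ ?_ ?_ ?_
    · rw [mem_It_top (by omega) hg]; rfl
    · have e3 := coeff_y_succ 0 (k - 1) 1 (monomial (e 0 (k - 1) 1) (1 : K))
      rw [show k - 1 + 1 = k by omega] at e3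
      rw [lcoeff_apply, e3]; simp
    · have e3 := coeff_z_succ 0 k 0 (monomial (e 0 (k - 1) 1) (1 : K))
      rw [zero_add] at e3
      rw [lcoeff_apply, e3]; simp [e_inj]
    · have e3 := coeff_y_succ 0 (k - 1) 1 (monomial (e 0 k 0) (1 : K))
      rw [show k - 1 + 1 = k by omega] at e3
      rw [lcoeff_apply, e3]; simp [e_inj]
    · have e3 := coeff_z_succ 0 k 0 (monomial (e 0 k 0) (1 : K))
      rw [zero_add] at e3
      rw [lcoeff_apply, e3]; simp

lemma top_ranks_J {k : ℕ} (hk : 3 ≤ k) :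
    rk (grad (J K k) k) = 2 ∧
    rk (curl (J K k) k) = 3 ∧
    rk (div (J K k) k) = 1 := by
  apply top_ranks
  · rw [finrank_J (by omega)]; simp [T]
  · intro v
    induction v using Submodule.Quotient.induction_on with
    | _ f =>
    rw [mulX_mk_eq_zero, mem_J_top (by omega) (X_mul_mem f.2)]
    exact coeff_x_zero _ _ _
  · refine hyz_of _ k (lcoeff K (e 0 (k - 1) 2)) (fun g hg => ?_)
      ⟨monomial (e 0 (k - 2) 2) 1, mono_mem _ _ _ (by omega)⟩
      ⟨monomial (e 0 (k - 1) 1) 1, mono_mem _ _ _ (by omega)⟩ ?_ ?_ ?_ ?_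
    · rw [mem_J_top (by omega) hg]; rfl
    · have e3 := coeff_y_succ 0 (k - 2) 2 (monomial (e 0 (k - 2) 2) (1 : K))
      rw [show k - 2 + 1 = k - 1 by omega] at e3
      rw [lcoeff_apply, e3]; simp
    · have e3 := coeff_z_succ 0 (k - 1) 1 (monomial (e 0 (k - 2) 2) (1 : K))
      rw [show 1 + 1 = 2 from rfl] at e3
      rw [lcoeff_apply, e3]; simp [e_inj]
    · have e3 := coeff_y_succ 0 (k - 2) 2 (monomial (e 0 (k - 1) 1) (1 : K))
      rw [show k - 2 + 1 = k - 1 by omega] at e3
      rw [lcoeff_apply, e3]; simp [e_inj]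
    · have e3 := coeff_z_succ 0 (k - 1) 1 (monomial (e 0 (k - 1) 1) (1 : K))
      rw [show 1 + 1 = 2 from rfl] at e3
      rw [lcoeff_apply, e3]; simp

lemma part_eq {k : ℕ} (hk : 3 ≤ k) {i : ℕ} (hi : i ≤ k) : part (It k (0 : K)) i = part (J K k) i := by
  ext ⟨f, hf⟩
  show f ∈ It k (0 : K) ↔ f ∈ J K k
  rcases i with _ | _ | i
  · rw [It, J, mem_Fam_zero hf, mem_Fam_zero hf]
  · rw [It, J, mem_Fam_one (by omega) (by omega) hf, mem_Fam_one (by omega) (by omega) hf]
  · rw [It, J, mem_Fam_mid (by omega) (by omega) (by omega) (by omega) hf,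
      mem_Fam_mid (by omega) (by omega) (by omega) (by omega) hf]

lemma large_ranks (I : Ideal (MvPolynomial (Fin 3) K)) (i : ℕ)
    (h1 : Module.finrank K (Piece I (i + 1)) = 0) :
    rk (grad I i) = 0 ∧
    rk (curl I i) = 0 ∧
    rk (div I i) = 0 := by
  refine ⟨?_, ?_, ?_⟩
  · have := Submodule.finrank_le (LinearMap.range (grad I i))
    rw [finrank_pi3, h1] at this
    rw [rk]; omega
  · have := Submodule.finrank_le (LinearMap.range (curl I i))
    rw [finrank_pi3, h1] at this
    rw [rk]; omega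
  · have := Submodule.finrank_le (LinearMap.range (div I i))
    rw [h1] at this
    rw [rk]; omega

lemma betti_It_zero_eq {k : ℕ} (hk : 3 ≤ k) (p s : ℕ) :
    betti (It k (0 : K)) p s = betti (J K k) p s := by
  apply betti_congr
  · intro i
    rw [finrank_It (by omega), finrank_J (by omega)]
  · intro i
    rcases lt_trichotomy i k with h | h | h
    · exact ranks_eq_of_part_eq _ _ i (part_eq hk (by omega)) (part_eq hk (by omega))
    · subst h
      obtain ⟨a, b, c⟩ := top_ranks_It (K := K) hk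
      obtain ⟨a', b', c'⟩ := top_ranks_J (K := K) hk
      exact ⟨a.trans a'.symm, b.trans b'.symm, c.trans c'.symm⟩
    · obtain ⟨a, b, c⟩ := large_ranks (It k (0 : K)) i (by
        rw [finrank_It (by omega), T, if_neg (by omega), if_neg (by omega), if_neg (by omega)])
      obtain ⟨a', b', c'⟩ := large_ranks (J K k) i (by
        rw [finrank_J (by omega), T, if_neg (by omega), if_neg (by omega), if_neg (by omega)])
      exact ⟨a.trans a'.symm, b.trans b'.symm, c.trans c'.symm⟩

/-- Betti numbers are bounded. -/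
lemma betti_le {k : ℕ} (I : GT K k) (p s : ℕ) : betti I.1 p s ≤ 9 := by
  have hT : ∀ i, Module.finrank K (Piece I.1 i) ≤ 3 := by
    intro i; rw [I.2.2 i, T]; split_ifs <;> omega
  have h1 : ∀ i, nul (grad I.1 i) ≤ 3 := fun i =>
    (Submodule.finrank_le _).trans (hT i)
  have h2 : ∀ i, nul (curl I.1 i) ≤ 9 := fun i =>
    (Submodule.finrank_le _).trans (by rw [finrank_pi3]; have := hT i; omega)
  have h3 : ∀ i, nul (div I.1 i) ≤ 9 := fun i =>
    (Submodule.finrank_le _).trans (by rw [finrank_pi3]; have := hT i; omega)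
  rcases p with _ | _ | _ | _ | p <;> rcases s with _ | s <;> simp only [betti]
  · have := hT 0; omega
  · have := hT (s + 1); omega
  · exact h3 0
  · have := h3 (s + 1); omega
  · exact h2 0
  · have := h2 (s + 1); omega
  · have := h1 0; omega
  · have := h1 (s + 1); omega
  · omega
  · omega

lemma betti_zero {k : ℕ} (I : GT K k) (p s : ℕ) (h : 4 ≤ p ∨ k + 2 ≤ s) : betti I.1 p s = 0 := by
  rcases h with h | h
  · obtain ⟨p, rfl⟩ := Nat.exists_eq_add_of_le' h
    rfl
  · have hT : Module.finrank K (Piece I.1 s) = 0 := by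
      rw [I.2.2 s, T, if_neg (by omega), if_neg (by omega), if_neg (by omega)]
    have h1 : nul (grad I.1 s) = 0 :=
      Nat.le_zero.mp ((Submodule.finrank_le _).trans hT.le)
    have h2 : nul (curl I.1 s) = 0 :=
      Nat.le_zero.mp ((Submodule.finrank_le _).trans (by rw [finrank_pi3, hT]))
    have h3 : nul (div I.1 s) = 0 :=
      Nat.le_zero.mp ((Submodule.finrank_le _).trans (by rw [finrank_pi3, hT]))
    rcases p with _ | _ | _ | _ | p <;> rcases s with _ | s <;> simp only [betti] <;> omega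

end Pool.Agent.R832.Frontier
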