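import Pool.Agent.R832.Frontier.Open

set_option autoImplicit false

open MvPolynomial

namespace Pool.Agent.R832.Frontier

variable {K : Type*} [Field K]

section
variable {k : ℕ} {ι : Type*} [Fintype ι] [DecidableEq ι] (I : K → GT K k)
    (Φ : K → (MvPolynomial (Fin 3) K →ₗ[K] (ι → K)))
    (hker : ∀ t f, f ∈ (I t).1 ↔ Φ t f = 0)
    (hsurj : ∀ t, Function.Surjective (Φ t))

omit [Fintype ι] [DecidableEq ι] in
include hker hsurj in
lemma exists_equiv (t : K) :
    ∃ E : (MvPolynomial (Fin 3) K ⧸ (I t).1) ≃ₗ[K] (ι → K),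
      ∀ f, E (Ideal.Quotient.mk _ f) = Φ t f := by
  have h1 : (I t).1.restrictScalars K = LinearMap.ker (Φ t) := by
    ext f
    rw [Submodule.restrictScalars_mem, LinearMap.mem_ker, hker]
  exact ⟨(Submodule.Quotient.restrictScalarsEquiv K (I t).1).symm.trans
    ((Submodule.quotEquivOfEq _ _ h1).trans ((Φ t).quotKerEquivOfSurjective (hsurj t))),
    fun f => rfl⟩

include hker hsurj in
lemma inChart_card {B : Finset (Fin 3 →₀ ℕ)} {t : K} (h : InChart B (I t)) :
    B.card = Fintype.card ι := by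
  obtain ⟨E, -⟩ := exists_equiv I Φ hker hsurj t
  have b := Module.Basis.mk h.1 h.2.ge
  have h1 := Module.finrank_eq_card_basis b
  rw [E.finrank_eq, Module.finrank_fintype_fun_eq_card, Fintype.card_coe] at h1
  exact h1.symm

include hker hsurj in
lemma inChart_iff {B : Finset (Fin 3 →₀ ℕ)} (ε : ι ≃ B) {t : K} :
    InChart B (I t) ↔ (Matrix.of fun i => Φ t (monomial (ε i).1 1)).det ≠ 0 := by
  obtain ⟨E, hE⟩ := exists_equiv I Φ hker hsurj t
  have h1 : LinearIndependent K
      (fun b : B => Ideal.Quotient.mk (I t).1 (monomial b.1 (1 : K))) ↔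
      (Matrix.of fun i => Φ t (monomial (ε i).1 1)).det ≠ 0 := by
    have h0 : (Matrix.of fun i => Φ t (monomial (ε i).1 1)).row = E.toLinearMap ∘
        ((fun b : B => Ideal.Quotient.mk (I t).1 (monomial b.1 (1 : K))) ∘ ε) := by
      funext i
      exact (hE _).symm
    rw [← isUnit_iff_ne_zero, ← Matrix.isUnit_iff_isUnit_det,
      ← Matrix.linearIndependent_rows_iff_isUnit, h0,
      LinearMap.linearIndependent_iff E.toLinearMap E.ker, linearIndependent_equiv ε]
  constructor
  · intro h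
    exact h1.mp h.1
  · intro h
    have hli := h1.mpr h
    refine ⟨hli, ?_⟩
    have : FiniteDimensional K (MvPolynomial (Fin 3) K ⧸ (I t).1) :=
      Module.Finite.equiv E.symm
    apply hli.span_eq_top_of_card_eq_finrank'
    rw [E.finrank_eq, Module.finrank_fintype_fun_eq_card, Fintype.card_congr ε]

variable (A : (Fin 3 →₀ ℕ) → ι → Polynomial K)
    (hA : ∀ t α j, Φ t (monomial α 1) j = (A α j).eval t)

include hker hsurj hA in
theorem chart_poly (B : Finset (Fin 3 →₀ ℕ))
    (P : MvPolynomial ((Fin 3 →₀ ℕ) × (Fin 3 →₀ ℕ)) K) :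
    ∃ Q : Polynomial K, ∀ t, I t ∈ principalOpen B P ↔ Q.eval t ≠ 0 := by
  classical
  by_cases hcard : B.card = Fintype.card ι
  swap
  · refine ⟨0, fun t => ?_⟩
    rw [Polynomial.eval_zero]
    refine iff_of_false (fun h => hcard (inChart_card I Φ hker hsurj h.1)) (by simp)
  obtain ⟨ε⟩ : Nonempty (ι ≃ B) := Fintype.card_eq.mp (by rw [Fintype.card_coe, hcard])
  set M : Matrix ι ι (Polynomial K) := Matrix.of fun i j => A (ε i).1 j with hM
  have hMt : ∀ t, (Matrix.of fun i => Φ t (monomial (ε i).1 1)) =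
      M.map (Polynomial.evalRingHom t) := by
    intro t
    ext i j
    simp [hM, hA]
  have hdet : ∀ t, (Matrix.of fun i => Φ t (monomial (ε i).1 1)).det = M.det.eval t := by
    intro t
    rw [hMt, ← Polynomial.coe_evalRingHom, RingHom.map_det]
    rfl
  have hch : ∀ t, InChart B (I t) ↔ M.det.eval t ≠ 0 := by
    intro t
    rw [inChart_iff I Φ hker hsurj ε, hdet]
  set N : (Fin 3 →₀ ℕ) → ι → Polynomial K := fun α => Matrix.vecMul (A α) M.adjugate with hN
  have hNM : ∀ α, Matrix.vecMul (N α) M = M.det • A α := by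
    intro α
    rw [hN]
    simp only
    rw [Matrix.vecMul_vecMul, Matrix.adjugate_mul, Matrix.vecMul_smul, Matrix.vecMul_one]
  set cc : K → (Fin 3 →₀ ℕ) → (Fin 3 →₀ ℕ) → K := fun t α β =>
    if h : β ∈ B then (M.det.eval t)⁻¹ * (N α (ε.symm ⟨β, h⟩)).eval t else 0 with hcc
  have hccpos : ∀ t α β (h : β ∈ B), cc t α β =
      (M.det.eval t)⁻¹ * (N α (ε.symm ⟨β, h⟩)).eval t := fun t α β h => dif_pos h
  have hccneg : ∀ t α β, β ∉ B → cc t α β = 0 := fun t α β h => dif_neg h
  clear_value cc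
  have hcoord : ∀ t, M.det.eval t ≠ 0 → IsCoord B (I t) (cc t) := by
    intro t ht
    refine isCoord_iff.mpr ⟨fun α => ?_, fun α β hβ => hccneg t α β hβ⟩
    rw [hker, map_sub, map_sum, sub_eq_zero]
    rw [← Finset.sum_coe_sort B, ← Equiv.sum_comp ε]
    ext j
    rw [Finset.sum_apply]
    have h1 : ∀ i : ι, (Φ t) (cc t α (ε i).1 • monomial (ε i).1 (1 : K)) j =
        (M.det.eval t)⁻¹ * (N α i * M i j).eval t := by
      intro i
      rw [map_smul, Pi.smul_apply, hA, smul_eq_mul, hccpos t α _ (ε i).2, Subtype.coe_eta,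
        Equiv.symm_apply_apply, Polynomial.eval_mul, mul_assoc]
      rfl
    rw [Finset.sum_congr rfl (fun i _ => h1 i), ← Finset.mul_sum, ← Polynomial.eval_finsetSum]
    have h2 : ∑ i, N α i * M i j = M.det * A α j := by
      have := congrFun (hNM α) j
      rw [Pi.smul_apply, smul_eq_mul] at this
      exact this
    rw [h2, Polynomial.eval_mul, hA, ← mul_assoc, inv_mul_cancel₀ ht, one_mul]
  have huniq : ∀ t, M.det.eval t ≠ 0 → ∀ c, IsCoord B (I t) c → c = cc t := by
    intro t ht c hc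
    ext α β
    by_cases hβ : β ∈ B
    · have h1 := (I t).1.sub_mem ((isCoord_iff.mp (hcoord t ht)).1 α) ((isCoord_iff.mp hc).1 α)
      rw [sub_sub_sub_cancel_left, ← Finset.sum_sub_distrib] at h1
      simp_rw [← sub_smul] at h1
      have h2 := chart_indep ((hch t).mpr ht) (fun β => c α β - cc t α β) h1 β hβ
      exact sub_eq_zero.mp h2
    · rw [hc.2 α β hβ, (hcoord t ht).2 α β hβ]
  have hpoly : ∀ P : MvPolynomial ((Fin 3 →₀ ℕ) × (Fin 3 →₀ ℕ)) K, ∃ (n : ℕ) (Q : Polynomial K),
      ∀ t, M.det.eval t ≠ 0 →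
        (M.det.eval t) ^ n * eval (fun p => cc t p.1 p.2) P = Q.eval t := by
    intro P
    induction P using MvPolynomial.induction_on with
    | C a => exact ⟨0, Polynomial.C a, fun t _ => by simp⟩
    | add P1 P2 h1 h2 =>
      obtain ⟨n1, Q1, h1⟩ := h1
      obtain ⟨n2, Q2, h2⟩ := h2
      refine ⟨n1 + n2, M.det ^ n2 * Q1 + M.det ^ n1 * Q2, fun t ht => ?_⟩
      rw [Polynomial.eval_add, Polynomial.eval_mul, Polynomial.eval_mul, Polynomial.eval_pow,
        Polynomial.eval_pow, ← h1 t ht, ← h2 t ht, map_add]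
      ring
    | mul_X P1 ab h1 =>
      obtain ⟨n1, Q1, h1⟩ := h1
      refine ⟨n1 + 1, Q1 * (if h : ab.2 ∈ B then N ab.1 (ε.symm ⟨ab.2, h⟩) else 0),
        fun t ht => ?_⟩
      rw [Polynomial.eval_mul, ← h1 t ht, map_mul, eval_X]
      split_ifs with h
      · rw [hccpos t _ _ h, pow_succ]
        have h3 : M.det.eval t * ((M.det.eval t)⁻¹ *
            (N ab.1 (ε.symm ⟨ab.2, h⟩)).eval t) = (N ab.1 (ε.symm ⟨ab.2, h⟩)).eval t := by
          rw [← mul_assoc, mul_inv_cancel₀ ht, one_mul]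
        conv_rhs => rw [← h3]
        ring
      · rw [hccneg t _ _ h]; simp
  obtain ⟨n, Q, hQ⟩ := hpoly P
  refine ⟨M.det * Q, fun t => ?_⟩
  rw [Polynomial.eval_mul]
  constructor
  · rintro ⟨h1, h2⟩
    have ht := (hch t).mp h1
    rw [← hQ t ht]
    exact mul_ne_zero ht (mul_ne_zero (pow_ne_zero _ ht) (h2 _ (hcoord t ht)))
  · intro h
    have ht := left_ne_zero_of_mul h
    refine ⟨(hch t).mpr ht, fun c hc => ?_⟩
    rw [huniq t ht c hc]
    have h3 := right_ne_zero_of_mul h
    rw [← hQ t ht] at h3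
    exact right_ne_zero_of_mul h3

include hker hsurj hA in
/-- Infinite subsets of the base are dense for the family. -/
theorem mem_closure_of_infinite (S : Set K) (hS : S.Infinite) (Z : Set (GT K k))
    (hZ : ∀ t ∈ S, I t ∈ Z) (t0 : K) : I t0 ∈ closure Z := by
  rw [mem_closure_iff]
  intro o ho ht0
  have key : ∀ o : Set (GT K k), IsOpen o → (∃ t, I t ∈ o) → {t | I t ∉ o}.Finite := by
    intro o ho
    induction ho with
    | basic s hs =>
      rintro ⟨t, ht⟩
      obtain ⟨B, P, rfl⟩ := hs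
      obtain ⟨Q, hQ⟩ := chart_poly I Φ hker hsurj A hA B P
      have hQ0 : Q ≠ 0 := by
        rintro rfl
        have := (hQ t).mp ht
        simp at this
      refine (Polynomial.finite_setOfPred_isRoot hQ0).subset (fun s hs => ?_)
      by_contra hcon
      exact hs ((hQ s).mpr hcon)
    | univ => intro _; simp
    | inter s t _ _ hs ht =>
      rintro ⟨x, hx⟩
      refine ((hs ⟨x, hx.1⟩).union (ht ⟨x, hx.2⟩)).subset (fun y hy => ?_)
      by_contra hcon
      rw [Set.mem_union] at hcon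
      push Not at hcon
      exact hy ⟨by simpa using hcon.1, by simpa using hcon.2⟩
    | sUnion T _ hT =>
      rintro ⟨x, s, hs, hx⟩
      refine (hT s hs ⟨x, hx⟩).subset (fun y hy hys => hy ⟨s, hs, hys⟩)
  have hfin := key o ho ⟨t0, ht0⟩
  obtain ⟨t, htS, ht⟩ := hS.exists_notMem_finite hfin
  refine ⟨I t, ?_, hZ t htS⟩
  simpa using ht

end

end Pool.Agent.R832.Frontier
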