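import Mathlib

/-!
# Betti strata of graded Artinian quotients of `K[x, y, z]` with Hilbert function `(1, 3^k, 1)`

* `Piece I i`: the degree `i` part of `A = R / I`, `R = K[x_0, x_1, x_2]`.
* `betti I p s`: the graded Betti number `β_{p, p+s}` of `R / I`, computed by the Koszul complex.
* `GT K k`: the family of graded ideals `I` such that `R / I` has Hilbert function `(1, 3^k, 1)`,
  with its Zariski topology.
* `FrontierProperty K k`: the closure of every Betti stratum of `G_T` is a union of Betti strata.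
-/

set_option autoImplicit false

open MvPolynomial

namespace Pool.Agent.R832.Frontier

/-- The space `R_i` of forms of degree `i`. -/
abbrev Form (K : Type*) [Field K] (i : ℕ) : Type _ := homogeneousSubmodule (Fin 3) K i

variable {K : Type*} [Field K]

/-- The degree `i` part `I_i` of the ideal `I`, as a subspace of `R_i`. -/
noncomputable def part (I : Ideal (MvPolynomial (Fin 3) K)) (i : ℕ) : Submodule K (Form K i) :=
  (I.restrictScalars K).comap (homogeneousSubmodule (Fin 3) K i).subtype

/-- The degree `i` part `A_i = R_i / I_i` of `A = R / I`. -/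
abbrev Piece (I : Ideal (MvPolynomial (Fin 3) K)) (i : ℕ) : Type _ := Form K i ⧸ part I i

/-- Multiplication by the variable `x_a` from `R_i` to `R_{i+1}`. -/
noncomputable def hmul (a : Fin 3) (i : ℕ) : Form K i →ₗ[K] Form K (i + 1) :=
  ((LinearMap.mulLeft K (X a : MvPolynomial (Fin 3) K)).comp
    (homogeneousSubmodule (Fin 3) K i).subtype).codRestrict _ (fun f => by
      have h := (isHomogeneous_X K a).mul f.2
      rwa [add_comm] at h)

/-- Multiplication by the variable `x_a` from `A_i` to `A_{i+1}`. -/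
noncomputable def mulX (I : Ideal (MvPolynomial (Fin 3) K)) (a : Fin 3) (i : ℕ) :
    Piece I i →ₗ[K] Piece I (i + 1) :=
  Submodule.mapQ (part I i) (part I (i + 1)) (hmul a i)
    (fun _ hf => Ideal.mul_mem_left I (X a) hf)

/-- `A_i ^ 3`. -/
abbrev Cube (I : Ideal (MvPolynomial (Fin 3) K)) (i : ℕ) : Type _ := Fin 3 → Piece I i

/-- The map `A_i ^ 3 → A_{i+1}`, `v ↦ x_a v_b`. -/
noncomputable def mulProj (I : Ideal (MvPolynomial (Fin 3) K)) (a b : Fin 3) (i : ℕ) :
    Cube I i →ₗ[K] Piece I (i + 1) := (mulX I a i).comp (LinearMap.proj b)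

/-- The Koszul differential `K_3 = A → K_2 = A ^ 3`, `v ↦ (x_0 v, x_1 v, x_2 v)`, in degrees `i`
and `i + 1` of `A`. -/
noncomputable def grad (I : Ideal (MvPolynomial (Fin 3) K)) (i : ℕ) : Piece I i →ₗ[K] Cube I (i + 1) :=
  LinearMap.pi fun a => mulX I a i

/-- The Koszul differential `K_2 = A ^ 3 → K_1 = A ^ 3`,
`v ↦ (x_1 v_2 - x_2 v_1, x_2 v_0 - x_0 v_2, x_0 v_1 - x_1 v_0)`, in degrees `i` and `i + 1`
of `A`. -/
noncomputable def curl (I : Ideal (MvPolynomial (Fin 3) K)) (i : ℕ) : Cube I i →ₗ[K] Cube I (i + 1) :=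
  LinearMap.pi fun a => mulProj I (a + 1) (a + 2) i - mulProj I (a + 2) (a + 1) i

/-- The Koszul differential `K_1 = A ^ 3 → K_0 = A`, `v ↦ x_0 v_0 + x_1 v_1 + x_2 v_2`, in degrees
`i` and `i + 1` of `A`. -/
noncomputable def div (I : Ideal (MvPolynomial (Fin 3) K)) (i : ℕ) : Cube I i →ₗ[K] Piece I (i + 1) :=
  ∑ a : Fin 3, mulProj I a a i

/-- The dimension of the image of a linear map. -/
noncomputable def rk {V W : Type*} [AddCommGroup V] [Module K V] [AddCommGroup W] [Module K W]
    (φ : V →ₗ[K] W) : ℕ := Module.finrank K (LinearMap.range φ)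

/-- The dimension of the kernel of a linear map. -/
noncomputable def nul {V W : Type*} [AddCommGroup V] [Module K V] [AddCommGroup W] [Module K W]
    (φ : V →ₗ[K] W) : ℕ := Module.finrank K (LinearMap.ker φ)

/-- The graded Betti number `β_{p, p+s}` of `A = R / I` over `R = K[x_0, x_1, x_2]`, that is the
dimension of `Tor_p (A, K)` in degree `p + s`: the dimension (cycles minus boundaries) of the
`p`-th homology of the Koszul complex `0 → A → A ^ 3 → A ^ 3 → A → 0` of `x_0, x_1, x_2` at the
degree `s` part of `A`. It is `0` for `p > 3`. -/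
noncomputable def betti (I : Ideal (MvPolynomial (Fin 3) K)) : ℕ → ℕ → ℕ
  | 0, 0 => Module.finrank K (Piece I 0)
  | 0, s + 1 => Module.finrank K (Piece I (s + 1)) - rk (div I s)
  | 1, 0 => nul (div I 0)
  | 1, s + 1 => nul (div I (s + 1)) - rk (curl I s)
  | 2, 0 => nul (curl I 0)
  | 2, s + 1 => nul (curl I (s + 1)) - rk (grad I s)
  | 3, s => nul (grad I s)
  | _ + 4, _ => 0

/-- The sequence `T = (1, 3^k, 1) = (1, 3, …, 3, 1)` with `k` entries equal to `3`. -/
def T (k i : ℕ) : ℕ := if i = 0 then 1 else if i ≤ k then 3 else if i = k + 1 then 1 else 0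

/-- `G_T` for `T = (1, 3^k, 1)`: the graded ideals `I` of `R = K[x_0, x_1, x_2]` with
`dim (R / I)_i = T_i` for all `i`. -/
def GT (K : Type*) [Field K] (k : ℕ) : Type _ :=
  {I : Ideal (MvPolynomial (Fin 3) K) // (∀ f ∈ I, ∀ d : ℕ, homogeneousComponent d f ∈ I) ∧
    ∀ i, Module.finrank K (Piece I i) = T k i}

/-- The class in `R / I` of the monomial `x^α`. -/
noncomputable def cls {k : ℕ} (I : GT K k) (α : Fin 3 →₀ ℕ) : MvPolynomial (Fin 3) K ⧸ I.1 :=
  Ideal.Quotient.mk I.1 (monomial α 1)

/-- `I` lies in the standard affine chart of `B`: the monomials with exponents in the finite set `B`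
form a basis of `R / I`. -/
def InChart {k : ℕ} (B : Finset (Fin 3 →₀ ℕ)) (I : GT K k) : Prop :=
  LinearIndependent K (fun b : B => cls I b.1) ∧
  Submodule.span K (Set.range fun b : B => cls I b.1) = ⊤

/-- `c` is the coordinate vector of `I` in the chart `B`: every monomial `x^α` is congruent to
`∑_{β ∈ B} c α β * x^β` modulo `I`. (For `I` in the chart there is exactly one such `c`.) -/
def IsCoord {k : ℕ} (B : Finset (Fin 3 →₀ ℕ)) (I : GT K k)
    (c : (Fin 3 →₀ ℕ) → (Fin 3 →₀ ℕ) → K) : Prop :=
  (∀ α, cls I α = ∑ β ∈ B, c α β • cls I β) ∧ ∀ α β, β ∉ B → c α β = 0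

/-- The principal open subset of the chart `B` where the polynomial `P` in the coordinates does not
vanish. -/
def principalOpen {k : ℕ} (B : Finset (Fin 3 →₀ ℕ))
    (P : MvPolynomial ((Fin 3 →₀ ℕ) × (Fin 3 →₀ ℕ)) K) : Set (GT K k) :=
  {I | InChart B I ∧ ∀ c, IsCoord B I c → eval (fun p => c p.1 p.2) P ≠ 0}

/-- The Zariski topology of `G_T`: it is generated by the principal open subsets of the affine
charts. -/
instance zariski (K : Type*) [Field K] (k : ℕ) : TopologicalSpace (GT K k) :=
  TopologicalSpace.generateFrom {U | ∃ B P, U = principalOpen B P}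

/-- The Betti stratum of the Betti table `β`. -/
def stratum (K : Type*) [Field K] (k : ℕ) (β : ℕ → ℕ → ℕ) : Set (GT K k) :=
  {I | ∀ p s, betti I.1 p s = β p s}

/-- The Betti strata of `G_T`, `T = (1, 3^k, 1)`, satisfy the frontier property: the Zariski closure
of every Betti stratum is a union of Betti strata. -/
def FrontierProperty (K : Type*) [Field K] (k : ℕ) : Prop :=
  ∀ β : ℕ → ℕ → ℕ, ∃ S : Set (ℕ → ℕ → ℕ), closure (stratum K k β) = ⋃ β' ∈ S, stratum K k β'

end Pool.Agent.R832.Frontier
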