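import Pool.Agent.R832.Frontier.Defs

set_option autoImplicit false

open MvPolynomial

namespace Pool.Agent.R832.Frontier

variable {K : Type*} [Field K]

/-- The exponent vector of `x^a y^b z^c`. -/
noncomputable def e (a b c : ℕ) : Fin 3 →₀ ℕ := Finsupp.equivFunOnFinite.symm ![a, b, c]

@[simp] lemma e_zero' (a b c : ℕ) : e a b c 0 = a := rfl
@[simp] lemma e_one' (a b c : ℕ) : e a b c 1 = b := rfl
@[simp] lemma e_two' (a b c : ℕ) : e a b c 2 = c := rfl

lemma e_inj {a b c a' b' c' : ℕ} : e a b c = e a' b' c' ↔ a = a' ∧ b = b' ∧ c = c' := by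
  constructor
  · intro h
    refine ⟨?_, ?_, ?_⟩
    · simpa using DFunLike.congr_fun h 0
    · simpa using DFunLike.congr_fun h 1
    · simpa using DFunLike.congr_fun h 2
  · rintro ⟨rfl, rfl, rfl⟩; rfl

lemma e_add (a b c a' b' c' : ℕ) : e a b c + e a' b' c' = e (a + a') (b + b') (c + c') := by
  ext i; fin_cases i <;> rfl

lemma single_zero_one : Finsupp.single (0 : Fin 3) 1 = e 1 0 0 := by
  ext i; fin_cases i <;> simp [e]
lemma single_one_one : Finsupp.single (1 : Fin 3) 1 = e 0 1 0 := by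
  ext i; fin_cases i <;> simp [e]
lemma single_two_one : Finsupp.single (2 : Fin 3) 1 = e 0 0 1 := by
  ext i; fin_cases i <;> simp [e]

lemma e_degree (a b c : ℕ) : (e a b c).degree = a + b + c := by
  rw [Finsupp.degree_eq_sum, Fin.sum_univ_three]; rfl

lemma eq_e (m : Fin 3 →₀ ℕ) : m = e (m 0) (m 1) (m 2) := by
  ext i; fin_cases i <;> rfl

lemma coeff_x_succ (a b c : ℕ) (f : MvPolynomial (Fin 3) K) :
    coeff (e (a + 1) b c) (X 0 * f) = coeff (e a b c) f := by
  have : e (a + 1) b c = Finsupp.single 0 1 + e a b c := by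
    rw [single_zero_one, e_add]; simp [add_comm]
  rw [this, coeff_X_mul]

lemma coeff_y_succ (a b c : ℕ) (f : MvPolynomial (Fin 3) K) :
    coeff (e a (b + 1) c) (X 1 * f) = coeff (e a b c) f := by
  have : e a (b + 1) c = Finsupp.single 1 1 + e a b c := by
    rw [single_one_one, e_add]; simp [add_comm]
  rw [this, coeff_X_mul]

lemma coeff_z_succ (a b c : ℕ) (f : MvPolynomial (Fin 3) K) :
    coeff (e a b (c + 1)) (X 2 * f) = coeff (e a b c) f := by
  have : e a b (c + 1) = Finsupp.single 2 1 + e a b c := by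
    rw [single_two_one, e_add]; simp [add_comm]
  rw [this, coeff_X_mul]

lemma coeff_x_zero (b c : ℕ) (f : MvPolynomial (Fin 3) K) :
    coeff (e 0 b c) (X 0 * f) = 0 := by
  rw [coeff_X_mul', if_neg]; simp [e]
lemma coeff_y_zero (a c : ℕ) (f : MvPolynomial (Fin 3) K) :
    coeff (e a 0 c) (X 1 * f) = 0 := by
  rw [coeff_X_mul', if_neg]; simp [e]
lemma coeff_z_zero (a b : ℕ) (f : MvPolynomial (Fin 3) K) :
    coeff (e a b 0) (X 2 * f) = 0 := by
  rw [coeff_X_mul', if_neg]; simp [e]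

lemma coeff_y_zero' (a b c : ℕ) (f : MvPolynomial (Fin 3) K) (h : b = 0) :
    coeff (e a b c) (X 1 * f) = 0 := by
  subst h; exact coeff_y_zero a c f

/-- Auxiliary predicate. -/
def FamMem (k p q : ℕ) (t : K) (f : MvPolynomial (Fin 3) K) : Prop :=
  (∀ b ≤ k, coeff (e 0 b 0) f = 0) ∧ (∀ b < p, coeff (e 0 b 1) f = 0) ∧
    (∀ b < q, coeff (e 0 b 2) f + t * coeff (e 1 (b + 1) 0) f = 0) ∧ coeff (e 1 0 0) f = 0

lemma FamMem.X_mul {k p q : ℕ} {t : K} (hqp : q ≤ p) (hpk : p ≤ k + 1) (hqk : q ≤ k)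
    {f : MvPolynomial (Fin 3) K} (hf : FamMem k p q t f) (a : Fin 3) :
    FamMem k p q t (X a * f) := by
  obtain ⟨h0, h1, h2, h3⟩ := hf
  fin_cases a
  · refine ⟨fun b _ => ?_, fun b _ => ?_, fun b hb => ?_, ?_⟩
    · exact coeff_x_zero _ _ _
    · exact coeff_x_zero _ _ _
    · have e1 := coeff_x_zero b 2 f
      have e2 := coeff_x_succ 0 (b + 1) 0 f
      have e3 := h0 (b + 1) (by omega)
      simp only [Fin.zero_eta, zero_add] at *
      rw [e1, e2, e3]; simp
    · have e2 := coeff_x_succ 0 0 0 f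
      have e3 := h0 0 (by omega)
      simp only [Fin.zero_eta, zero_add] at *
      rw [e2, e3]
  · refine ⟨fun b hb => ?_, fun b hb => ?_, fun b hb => ?_, ?_⟩
    · rcases b with _ | b
      · exact coeff_y_zero _ _ _
      · have := coeff_y_succ 0 b 0 f
        have e3 := h0 b (by omega)
        simp only [Fin.mk_one] at *
        rw [this, e3]
    · rcases b with _ | b
      · exact coeff_y_zero _ _ _
      · have := coeff_y_succ 0 b 1 f
        have e3 := h1 b (by omega)
        simp only [Fin.mk_one] at *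
        rw [this, e3]
    · rcases b with _ | b
      · have e1 := coeff_y_zero 0 2 f
        have e2 := coeff_y_succ 1 0 0 f
        simp only [Fin.mk_one, zero_add] at *
        rw [e1, e2, h3]; simp
      · have e1 := coeff_y_succ 0 b 2 f
        have e2 := coeff_y_succ 1 (b + 1) 0 f
        have e3 := h2 b (by omega)
        simp only [Fin.mk_one] at *
        rw [e1, e2, e3]
    · exact coeff_y_zero _ _ _
  · refine ⟨fun b _ => ?_, fun b hb => ?_, fun b hb => ?_, ?_⟩
    · exact coeff_z_zero _ _ _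
    · have e1 := coeff_z_succ 0 b 0 f
      have e3 := h0 b (by omega)
      simp only [Fin.reduceFinMk, zero_add] at *
      rw [e1, e3]
    · have e1 := coeff_z_succ 0 b 1 f
      have e2 := coeff_z_zero 1 (b + 1) f
      have e3 := h1 b (by omega)
      simp only [Fin.reduceFinMk, Nat.reduceAdd] at *
      rw [e1, e2, e3]; simp
    · exact coeff_z_zero _ _ _

/-- The ideal. -/
def Fam (k p q : ℕ) (t : K) (hqp : q ≤ p) (hpk : p ≤ k + 1) (hqk : q ≤ k) :
    Ideal (MvPolynomial (Fin 3) K) where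
  carrier := {f | FamMem k p q t f}
  zero_mem' := by simp [FamMem]
  add_mem' := by
    rintro f g ⟨f0, f1, f2, f3⟩ ⟨g0, g1, g2, g3⟩
    refine ⟨fun b hb => ?_, fun b hb => ?_, fun b hb => ?_, ?_⟩
    · rw [coeff_add, f0 b hb, g0 b hb, add_zero]
    · rw [coeff_add, f1 b hb, g1 b hb, add_zero]
    · rw [coeff_add, coeff_add]; linear_combination f2 b hb + g2 b hb
    · rw [coeff_add, f3, g3, add_zero]
  smul_mem' := by
    intro c f hf
    simp only [Set.mem_ofPred_eq, smul_eq_mul] at hf ⊢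
    induction c using MvPolynomial.induction_on generalizing f with
    | C a =>
      obtain ⟨h0, h1, h2, h3⟩ := hf
      refine ⟨fun b hb => ?_, fun b hb => ?_, fun b hb => ?_, ?_⟩
      · rw [coeff_C_mul, h0 b hb, mul_zero]
      · rw [coeff_C_mul, h1 b hb, mul_zero]
      · rw [coeff_C_mul, coeff_C_mul]; linear_combination a * h2 b hb
      · rw [coeff_C_mul, h3, mul_zero]
    | add p' q' hp hq =>
      rw [add_mul]
      obtain ⟨f0, f1, f2, f3⟩ := hp hf
      obtain ⟨g0, g1, g2, g3⟩ := hq hf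
      refine ⟨fun b hb => ?_, fun b hb => ?_, fun b hb => ?_, ?_⟩
      · rw [coeff_add, f0 b hb, g0 b hb, add_zero]
      · rw [coeff_add, f1 b hb, g1 b hb, add_zero]
      · rw [coeff_add, coeff_add]; linear_combination f2 b hb + g2 b hb
      · rw [coeff_add, f3, g3, add_zero]
    | mul_X p' a hp =>
      rw [mul_assoc]
      exact hp (hf.X_mul hqp hpk hqk a)

lemma mem_Fam {k p q : ℕ} {t : K} {hqp : q ≤ p} {hpk : p ≤ k + 1} {hqk : q ≤ k}
    {f : MvPolynomial (Fin 3) K} : f ∈ Fam k p q t hqp hpk hqk ↔ FamMem k p q t f := Iff.rfl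

lemma Fam_homog {k p q : ℕ} {t : K} {hqp : q ≤ p} {hpk : p ≤ k + 1} {hqk : q ≤ k}
    {f : MvPolynomial (Fin 3) K} (hf : f ∈ Fam k p q t hqp hpk hqk) (d : ℕ) :
    homogeneousComponent d f ∈ Fam k p q t hqp hpk hqk := by
  obtain ⟨h0, h1, h2, h3⟩ := hf
  refine ⟨fun b hb => ?_, fun b hb => ?_, fun b hb => ?_, ?_⟩
  · rw [coeff_homogeneousComponent, h0 b hb, ite_self]
  · rw [coeff_homogeneousComponent, h1 b hb, ite_self]
  · rw [coeff_homogeneousComponent, coeff_homogeneousComponent, e_degree, e_degree]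
    by_cases h : 0 + b + 2 = d
    · rw [if_pos h, if_pos (by omega)]; exact h2 b hb
    · rw [if_neg h, if_neg (by omega)]; ring
  · rw [coeff_homogeneousComponent, h3, ite_self]

/-- the value of `T` computed from a family of functionals detecting membership in `I`. -/
lemma finrank_piece {m : ℕ} (I : Ideal (MvPolynomial (Fin 3) K)) (i : ℕ)
    (Λ : MvPolynomial (Fin 3) K →ₗ[K] (Fin m → K))
    (hker : ∀ f ∈ homogeneousSubmodule (Fin 3) K i, f ∈ I ↔ Λ f = 0)
    (hsurj : ∀ j : Fin m, ∃ f ∈ homogeneousSubmodule (Fin 3) K i, Λ f = Pi.single j 1) :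
    Module.finrank K (Piece I i) = m := by
  have hk : part I i =
      LinearMap.ker (Λ.comp (homogeneousSubmodule (Fin 3) K i).subtype) := by
    ext f
    exact hker f.1 f.2
  have hs : Function.Surjective (Λ.comp (homogeneousSubmodule (Fin 3) K i).subtype) := by
    intro v
    choose g hg hΛ using hsurj
    refine ⟨∑ j, v j • ⟨g j, hg j⟩, ?_⟩
    rw [map_sum]
    simp only [map_smul, LinearMap.comp_apply, Submodule.subtype_apply, hΛ]
    ext j
    simp [Pi.single_apply]
  have := ((Submodule.quotEquivOfEq _ _ hk).trans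
    (LinearMap.quotKerEquivOfSurjective _ hs)).finrank_eq
  rw [Module.finrank_fin_fun] at this
  exact this

lemma hcoeff {i : ℕ} {f : MvPolynomial (Fin 3) K} (hf : f ∈ homogeneousSubmodule (Fin 3) K i)
    {a b c : ℕ} (h : a + b + c ≠ i) : coeff (e a b c) f = 0 := by
  rw [mem_homogeneousSubmodule] at hf
  exact hf.coeff_eq_zero (by rw [e_degree]; exact h)

lemma mono_mem (a b c : ℕ) {i : ℕ} (h : a + b + c = i) :
    (monomial (e a b c) (1 : K)) ∈ homogeneousSubmodule (Fin 3) K i := by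
  rw [mem_homogeneousSubmodule]
  exact isHomogeneous_monomial 1 (by rw [e_degree]; exact h)

lemma coeff_mono (a b c a' b' c' : ℕ) :
    coeff (e a b c) (monomial (e a' b' c') (1 : K)) =
      if a = a' ∧ b = b' ∧ c = c' then 1 else 0 := by
  rw [coeff_monomial]
  congr 1
  rw [e_inj]
  apply propext
  constructor
  · rintro ⟨rfl, rfl, rfl⟩; simp
  · rintro ⟨rfl, rfl, rfl⟩; simp

/-- the degree-`i` functionals, `2 ≤ i ≤ k`. -/
noncomputable def Lam (t : K) (i : ℕ) : MvPolynomial (Fin 3) K →ₗ[K] (Fin 3 → K) :=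
  LinearMap.pi ![lcoeff K (e 0 i 0), lcoeff K (e 0 (i - 1) 1),
    lcoeff K (e 0 (i - 2) 2) + t • lcoeff K (e 1 (i - 1) 0)]

noncomputable def LamOne : MvPolynomial (Fin 3) K →ₗ[K] (Fin 3 → K) :=
  LinearMap.pi ![lcoeff K (e 0 1 0), lcoeff K (e 0 0 1), lcoeff K (e 1 0 0)]

lemma mem_Fam_mid {k p q : ℕ} {t : K} {hqp : q ≤ p} {hpk : p ≤ k + 1} {hqk : q ≤ k}
    {i : ℕ} (h2 : 2 ≤ i) (hik : i ≤ k) (hip : i ≤ p) (hiq : i ≤ q + 1)
    {f : MvPolynomial (Fin 3) K} (hf : f ∈ homogeneousSubmodule (Fin 3) K i) :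
    f ∈ Fam k p q t hqp hpk hqk ↔ coeff (e 0 i 0) f = 0 ∧ coeff (e 0 (i - 1) 1) f = 0 ∧
      coeff (e 0 (i - 2) 2) f + t * coeff (e 1 (i - 1) 0) f = 0 := by
  constructor
  · rintro ⟨h0, h1, h2', h3⟩
    refine ⟨h0 i hik, h1 (i - 1) (by omega), ?_⟩
    have := h2' (i - 2) (by omega)
    rwa [show i - 2 + 1 = i - 1 by omega] at this
  · rintro ⟨h0, h1, h2'⟩
    refine ⟨fun b hb => ?_, fun b hb => ?_, fun b hb => ?_, ?_⟩
    · by_cases h : b = i
      · subst h; exact h0
      · exact hcoeff hf (by omega)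
    · by_cases h : b = i - 1
      · subst h; exact h1
      · exact hcoeff hf (by omega)
    · by_cases h : b = i - 2
      · subst h
        rwa [show i - 2 + 1 = i - 1 by omega]
      · rw [hcoeff hf (by omega), hcoeff hf (by omega)]; ring
    · exact hcoeff hf (by omega)

lemma mem_Fam_one {k p q : ℕ} {t : K} {hqp : q ≤ p} {hpk : p ≤ k + 1} {hqk : q ≤ k}
    (hk : 1 ≤ k) (hp : 1 ≤ p)
    {f : MvPolynomial (Fin 3) K} (hf : f ∈ homogeneousSubmodule (Fin 3) K 1) :
    f ∈ Fam k p q t hqp hpk hqk ↔ coeff (e 0 1 0) f = 0 ∧ coeff (e 0 0 1) f = 0 ∧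
      coeff (e 1 0 0) f = 0 := by
  constructor
  · rintro ⟨h0, h1, h2', h3⟩
    exact ⟨h0 1 hk, h1 0 (by omega), h3⟩
  · rintro ⟨h0, h1, h2'⟩
    refine ⟨fun b hb => ?_, fun b hb => ?_, fun b hb => ?_, h2'⟩
    · by_cases h : b = 1
      · subst h; exact h0
      · exact hcoeff hf (by omega)
    · by_cases h : b = 0
      · subst h; exact h1
      · exact hcoeff hf (by omega)
    · rw [hcoeff hf (by omega), hcoeff hf (by omega)]; ring

lemma mem_Fam_zero {k p q : ℕ} {t : K} {hqp : q ≤ p} {hpk : p ≤ k + 1} {hqk : q ≤ k}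
    {f : MvPolynomial (Fin 3) K} (hf : f ∈ homogeneousSubmodule (Fin 3) K 0) :
    f ∈ Fam k p q t hqp hpk hqk ↔ coeff (e 0 0 0) f = 0 := by
  constructor
  · rintro ⟨h0, h1, h2', h3⟩
    exact h0 0 (by omega)
  · rintro h0
    refine ⟨fun b hb => ?_, fun b hb => ?_, fun b hb => ?_, hcoeff hf (by omega)⟩
    · by_cases h : b = 0
      · subst h; exact h0
      · exact hcoeff hf (by omega)
    · exact hcoeff hf (by omega)
    · rw [hcoeff hf (by omega), hcoeff hf (by omega)]; ring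

lemma mem_Fam_large {k p q : ℕ} {t : K} {hqp : q ≤ p} {hpk : p ≤ k + 1} {hqk : q ≤ k}
    {i : ℕ} (hik : k + 2 ≤ i)
    {f : MvPolynomial (Fin 3) K} (hf : f ∈ homogeneousSubmodule (Fin 3) K i) :
    f ∈ Fam k p q t hqp hpk hqk := by
  refine ⟨fun b hb => hcoeff hf (by omega), fun b hb => hcoeff hf (by omega), fun b hb => ?_,
    hcoeff hf (by omega)⟩
  rw [hcoeff hf (by omega), hcoeff hf (by omega)]; ring

lemma finrank_Fam_mid {k p q : ℕ} {t : K} {hqp : q ≤ p} {hpk : p ≤ k + 1} {hqk : q ≤ k}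
    {i : ℕ} (h2 : 2 ≤ i) (hik : i ≤ k) (hip : i ≤ p) (hiq : i ≤ q + 1) :
    Module.finrank K (Piece (Fam k p q t hqp hpk hqk) i) = 3 := by
  refine finrank_piece _ i (Lam t i) (fun f hf => ?_) (fun j => ?_)
  · rw [mem_Fam_mid h2 hik hip hiq hf]
    constructor
    · rintro ⟨h0, h1, h2⟩
      ext j
      fin_cases j
      · exact h0
      · exact h1
      · exact h2
    · intro h
      exact ⟨congrFun h 0, congrFun h 1, congrFun h 2⟩
  · fin_cases j
    · refine ⟨_, mono_mem 0 i 0 (by omega), ?_⟩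
      ext j
      fin_cases j
      · simp [Lam, e_inj]
      · simp [Lam, e_inj]
      · simp [Lam, e_inj]
    · refine ⟨_, mono_mem 0 (i - 1) 1 (by omega), ?_⟩
      ext j
      fin_cases j
      · simp [Lam, e_inj]
      · simp [Lam, e_inj]
      · simp [Lam, e_inj]
    · refine ⟨_, mono_mem 0 (i - 2) 2 (by omega), ?_⟩
      ext j
      fin_cases j
      · simp [Lam, e_inj]
      · simp [Lam, e_inj]
      · simp [Lam, e_inj]

lemma finrank_Fam_one {k p q : ℕ} {t : K} {hqp : q ≤ p} {hpk : p ≤ k + 1} {hqk : q ≤ k}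
    (hk : 1 ≤ k) (hp : 1 ≤ p) :
    Module.finrank K (Piece (Fam k p q t hqp hpk hqk) 1) = 3 := by
  refine finrank_piece _ 1 LamOne (fun f hf => ?_) (fun j => ?_)
  · rw [mem_Fam_one hk hp hf]
    constructor
    · rintro ⟨h0, h1, h2⟩
      ext j
      fin_cases j
      · exact h0
      · exact h1
      · exact h2
    · intro h
      exact ⟨congrFun h 0, congrFun h 1, congrFun h 2⟩
  · fin_cases j
    · refine ⟨_, mono_mem 0 1 0 (by omega), ?_⟩
      ext j
      fin_cases j
      · simp [LamOne, e_inj]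
      · simp [LamOne, e_inj]
      · simp [LamOne, e_inj]
    · refine ⟨_, mono_mem 0 0 1 (by omega), ?_⟩
      ext j
      fin_cases j
      · simp [LamOne, e_inj]
      · simp [LamOne, e_inj]
      · simp [LamOne, e_inj]
    · refine ⟨_, mono_mem 1 0 0 (by omega), ?_⟩
      ext j
      fin_cases j
      · simp [LamOne, e_inj]
      · simp [LamOne, e_inj]
      · simp [LamOne, e_inj]

/-- one functional suffices -/
lemma finrank_piece_one (I : Ideal (MvPolynomial (Fin 3) K)) (i : ℕ)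
    (Λ : MvPolynomial (Fin 3) K →ₗ[K] K)
    (hker : ∀ f ∈ homogeneousSubmodule (Fin 3) K i, f ∈ I ↔ Λ f = 0)
    (hsurj : ∃ f ∈ homogeneousSubmodule (Fin 3) K i, Λ f = 1) :
    Module.finrank K (Piece I i) = 1 := by
  refine finrank_piece I i (LinearMap.pi ![Λ]) (fun f hf => ?_) (fun j => ?_)
  · rw [hker f hf]
    constructor
    · intro h; ext j; fin_cases j; exact h
    · intro h; exact congrFun h 0
  · obtain ⟨f, hf, h1⟩ := hsurj
    refine ⟨f, hf, ?_⟩
    fin_cases j
    ext j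
    fin_cases j
    simpa using h1

lemma finrank_piece_zero (I : Ideal (MvPolynomial (Fin 3) K)) (i : ℕ)
    (hker : ∀ f ∈ homogeneousSubmodule (Fin 3) K i, f ∈ I) :
    Module.finrank K (Piece I i) = 0 := by
  refine finrank_piece I i (0 : _ →ₗ[K] (Fin 0 → K)) (fun f hf => ?_) (fun j => j.elim0)
  simp [hker f hf]

lemma finrank_Fam_zero {k p q : ℕ} {t : K} {hqp : q ≤ p} {hpk : p ≤ k + 1} {hqk : q ≤ k} :
    Module.finrank K (Piece (Fam k p q t hqp hpk hqk) 0) = 1 := by
  refine finrank_piece_one _ 0 (lcoeff K (e 0 0 0)) (fun f hf => ?_)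
    ⟨_, mono_mem 0 0 0 (by omega), ?_⟩
  · rw [mem_Fam_zero hf]; rfl
  · simp [e_inj]

/-- The ideals `I_t`. -/
def It (k : ℕ) (t : K) : Ideal (MvPolynomial (Fin 3) K) :=
  Fam k (k + 1) (k - 1) t (by omega) (by omega) (by omega)

/-- The monomial ideal `J`. -/
def J (K : Type*) [Field K] (k : ℕ) : Ideal (MvPolynomial (Fin 3) K) :=
  Fam k k k 0 (by omega) (by omega) (by omega)

lemma mem_It_top {k : ℕ} {t : K} (hk : 1 ≤ k)
    {f : MvPolynomial (Fin 3) K} (hf : f ∈ homogeneousSubmodule (Fin 3) K (k + 1)) :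
    f ∈ It k t ↔ coeff (e 0 k 1) f = 0 := by
  constructor
  · rintro ⟨h0, h1, h2', h3⟩
    exact h1 k (by omega)
  · rintro h0
    refine ⟨fun b hb => hcoeff hf (by omega), fun b hb => ?_, fun b hb => ?_,
      hcoeff hf (by omega)⟩
    · by_cases h : b = k
      · subst h; exact h0
      · exact hcoeff hf (by omega)
    · rw [hcoeff hf (by omega), hcoeff hf (by omega)]; ring

lemma mem_J_top {k : ℕ} (hk : 1 ≤ k)
    {f : MvPolynomial (Fin 3) K} (hf : f ∈ homogeneousSubmodule (Fin 3) K (k + 1)) :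
    f ∈ J K k ↔ coeff (e 0 (k - 1) 2) f = 0 := by
  constructor
  · rintro ⟨h0, h1, h2', h3⟩
    simpa using h2' (k - 1) (by omega)
  · rintro h0
    refine ⟨fun b hb => hcoeff hf (by omega), fun b hb => hcoeff hf (by omega), fun b hb => ?_,
      hcoeff hf (by omega)⟩
    by_cases h : b = k - 1
    · subst h; rw [h0]; ring
    · rw [hcoeff hf (by omega)]; ring

lemma finrank_It {k : ℕ} (hk : 2 ≤ k) (t : K) (i : ℕ) :
    Module.finrank K (Piece (It k t) i) = T k i := by
  unfold T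
  split_ifs with h0 h1 h2
  · subst h0; exact finrank_Fam_zero
  · by_cases h : i = 1
    · subst h; exact finrank_Fam_one (by omega) (by omega)
    · exact finrank_Fam_mid (by omega) (by omega) (by omega) (by omega)
  · subst h2
    refine finrank_piece_one _ _ (lcoeff K (e 0 k 1)) (fun f hf => ?_)
      ⟨_, mono_mem 0 k 1 (by omega), ?_⟩
    · rw [mem_It_top (by omega) hf]; rfl
    · simp [e_inj]
  · exact finrank_piece_zero _ _ (fun f hf => mem_Fam_large (by omega) hf)

lemma finrank_J {k : ℕ} (hk : 2 ≤ k) (i : ℕ) :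
    Module.finrank K (Piece (J K k) i) = T k i := by
  unfold T
  split_ifs with h0 h1 h2
  · subst h0; exact finrank_Fam_zero
  · by_cases h : i = 1
    · subst h; exact finrank_Fam_one (by omega) (by omega)
    · exact finrank_Fam_mid (by omega) (by omega) (by omega) (by omega)
  · subst h2
    refine finrank_piece_one _ _ (lcoeff K (e 0 (k - 1) 2)) (fun f hf => ?_)
      ⟨_, mono_mem 0 (k - 1) 2 (by omega), ?_⟩
    · rw [mem_J_top (by omega) hf]; rfl
    · simp [e_inj]
  · exact finrank_piece_zero _ _ (fun f hf => mem_Fam_large (by omega) hf)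

/-- `I_t` as a point of `G_T`. -/
def gIt (k : ℕ) (hk : 2 ≤ k) (t : K) : GT K k :=
  ⟨It k t, fun _ hf d => Fam_homog hf d, finrank_It hk t⟩

/-- `J` as a point of `G_T`. -/
def gJ (K : Type*) [Field K] (k : ℕ) (hk : 2 ≤ k) : GT K k :=
  ⟨J K k, fun _ hf d => Fam_homog hf d, finrank_J hk⟩

end Pool.Agent.R832.Frontier
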