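import Pool.Agent.R832.Frontier.Cont

set_option autoImplicit false

open MvPolynomial

namespace Pool.Agent.R832.Frontier

variable {K : Type*} [Field K]

/-- the index type of the functionals cutting out `I_t`. -/
abbrev Idx (k : ℕ) : Type := Fin (k + 1) ⊕ (Fin (k + 1) ⊕ (Fin (k - 1) ⊕ Unit))

/-- the functionals cutting out `I_t` -/
noncomputable def Phi (k : ℕ) (t : K) : MvPolynomial (Fin 3) K →ₗ[K] (Idx k → K) :=
  LinearMap.pi (Sum.elim (fun b => lcoeff K (e 0 b.1 0))
    (Sum.elim (fun b => lcoeff K (e 0 b.1 1))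
      (Sum.elim (fun b => lcoeff K (e 0 b.1 2) + t • lcoeff K (e 1 (b.1 + 1) 0))
        (fun _ => lcoeff K (e 1 0 0)))))

/-- the monomials dual to the functionals. -/
noncomputable def mon (k : ℕ) : Idx k → (Fin 3 →₀ ℕ) :=
  Sum.elim (fun b => e 0 b.1 0) (Sum.elim (fun b => e 0 b.1 1)
      (Sum.elim (fun b => e 0 b.1 2) (fun _ => e 1 0 0)))

lemma Phi_mon (k : ℕ) (t : K) (i j : Idx k) :
    Phi k t (monomial (mon k j) 1) i = if i = j then 1 else 0 := by
  have h0 : ∀ m m' : Fin 3 →₀ ℕ, coeff m (monomial m' (1 : K)) = if m' = m then 1 else 0 := by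
    intro m m'; rw [coeff_monomial]
  rcases i with i | i | i | i <;> rcases j with j | j | j | j <;>
    simp only [Phi, mon, LinearMap.pi_apply, Sum.elim_inl, Sum.elim_inr, lcoeff_apply, h0, e_inj,
      LinearMap.add_apply, LinearMap.smul_apply, Sum.inl.injEq, Sum.inr.injEq, Fin.ext_iff,
      reduceCtorEq, smul_eq_mul] <;> split_ifs <;>
    first | rfl | omega | (exfalso; simp_all; done) | simp

lemma Phi_surj (k : ℕ) (t : K) : Function.Surjective (Phi k t) := by
  intro v
  refine ⟨∑ j, v j • monomial (mon k j) 1, ?_⟩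
  rw [map_sum]
  ext i
  rw [Finset.sum_apply, Finset.sum_eq_single i]
  · rw [map_smul, Pi.smul_apply, Phi_mon, if_pos rfl, smul_eq_mul, mul_one]
  · intro j _ hj
    rw [map_smul, Pi.smul_apply, Phi_mon, if_neg hj.symm, smul_zero]
  · intro h; exact absurd (Finset.mem_univ i) h

lemma Phi_ker {k : ℕ} (hk : 2 ≤ k) (t : K) (f : MvPolynomial (Fin 3) K) :
    f ∈ (gIt k hk t).1 ↔ Phi k t f = 0 := by
  constructor
  · rintro ⟨h0, h1, h2, h3⟩
    ext i
    rcases i with i | i | i | i
    · exact h0 i.1 (by omega)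
    · exact h1 i.1 (by omega)
    · exact h2 i.1 (by omega)
    · exact h3
  · intro h
    refine ⟨fun b hb => ?_, fun b hb => ?_, fun b hb => ?_, ?_⟩
    · exact congrFun h (Sum.inl ⟨b, by omega⟩)
    · exact congrFun h (Sum.inr (Sum.inl ⟨b, by omega⟩))
    · exact congrFun h (Sum.inr (Sum.inr (Sum.inl ⟨b, by omega⟩)))
    · exact congrFun h (Sum.inr (Sum.inr (Sum.inr ())))

open Classical in
/-- the functionals on monomials, as polynomials in `t`. -/
noncomputable def Apoly (K : Type*) [Field K] (k : ℕ) (α : Fin 3 →₀ ℕ) : Idx k → Polynomial K :=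
  Sum.elim (fun b => if α = e 0 b.1 0 then 1 else 0)
    (Sum.elim (fun b => if α = e 0 b.1 1 then 1 else 0)
      (Sum.elim (fun b => (if α = e 0 b.1 2 then 1 else 0) +
        Polynomial.X * (if α = e 1 (b.1 + 1) 0 then 1 else 0))
        (fun _ => if α = e 1 0 0 then 1 else 0)))

lemma Apoly_eval (k : ℕ) (t : K) (α : Fin 3 →₀ ℕ) (j : Idx k) :
    Phi k t (monomial α 1) j = (Apoly K k α j).eval t := by
  classical
  rcases j with j | j | j | j
  · simp only [Phi, Apoly, LinearMap.pi_apply, Sum.elim_inl, lcoeff_apply, coeff_monomial]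
    split_ifs <;> simp
  · simp only [Phi, Apoly, LinearMap.pi_apply, Sum.elim_inl, Sum.elim_inr, lcoeff_apply,
      coeff_monomial]
    split_ifs <;> simp
  · simp only [Phi, Apoly, LinearMap.pi_apply, Sum.elim_inl, Sum.elim_inr, lcoeff_apply,
      LinearMap.add_apply, LinearMap.smul_apply, coeff_monomial]
    split_ifs <;> simp
  · simp only [Phi, Apoly, LinearMap.pi_apply, Sum.elim_inr, lcoeff_apply, coeff_monomial]
    split_ifs <;> simp

/-- `I_0` is in the closure of the stratum of `I_t` for infinitely many `t`. -/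
lemma It_zero_mem_closure {k : ℕ} (hk : 2 ≤ k) (S : Set K) (hS : S.Infinite) (Z : Set (GT K k))
    (hZ : ∀ t ∈ S, gIt k hk t ∈ Z) : gIt k hk (0 : K) ∈ closure Z := by
  classical
  exact mem_closure_of_infinite (gIt k hk) (Phi k) (Phi_ker hk) (Phi_surj k) (Apoly K k)
    (Apoly_eval k) S hS Z hZ 0

/-- The frontier property fails for `T = (1, 3^k, 1)`, `k ≥ 3`, over every infinite field. -/
theorem not_frontier [Infinite K] {k : ℕ} (hk : 3 ≤ k) : ¬ FrontierProperty K k := by
  intro hfr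
  have hk2 : 2 ≤ k := by omega
  have hinf : Infinite {t : K // t ≠ 0} := by
    have : ({0}ᶜ : Set K).Infinite := (Set.finite_singleton 0).infinite_compl
    exact Set.infinite_coe_iff.mpr this
  obtain ⟨y, hy⟩ := Finite.exists_infinite_fiber
    (fun (t : {t : K // t ≠ 0}) (p : Fin 4) (s : Fin (k + 2)) =>
      (⟨betti (It k t.1) p s, by have := betti_le (gIt k hk2 t.1) p s; exact Nat.lt_succ_of_le this⟩ : Fin 10))
  set F := (fun (t : {t : K // t ≠ 0}) (p : Fin 4) (s : Fin (k + 2)) =>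
      (⟨betti (It k t.1) p s, by have := betti_le (gIt k hk2 t.1) p s; exact Nat.lt_succ_of_le this⟩ : Fin 10))
    with hF
  set S : Set K := Subtype.val '' (F ⁻¹' {y}) with hSdef
  have hS : S.Infinite := (Set.infinite_coe_iff.mp hy).image Subtype.val_injective.injOn
  obtain ⟨t0, ht0⟩ := hS.nonempty
  have hbetti : ∀ t ∈ S, ∀ p s, betti (It k t) p s = betti (It k t0) p s := by
    rintro _ ⟨t, ht, rfl⟩ p s
    obtain ⟨t1, ht1, rfl⟩ := ht0
    by_cases h : 4 ≤ p ∨ k + 2 ≤ s
    · have e1 := betti_zero (gIt k hk2 t.1) p s h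
      have e2 := betti_zero (gIt k hk2 t1.1) p s h
      exact e1.trans e2.symm
    · push Not at h
      have h3 : F t = F t1 := ht.trans ht1.symm
      have h4 := congrFun (congrFun h3 ⟨p, h.1⟩) ⟨s, h.2⟩
      exact congrArg Fin.val h4
  have ht0' : t0 ≠ 0 := by
    obtain ⟨t1, ht1, rfl⟩ := ht0
    exact t1.2
  obtain ⟨𝒮, h𝒮⟩ := hfr (betti (It k t0))
  have h0 : gIt k hk2 (0 : K) ∈ closure (stratum K k (betti (It k t0))) :=
    It_zero_mem_closure hk2 S hS _ (fun t ht => hbetti t ht)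
  rw [h𝒮] at h0
  simp only [Set.mem_iUnion] at h0
  obtain ⟨β', hβ', h1⟩ := h0
  have hJ : gJ K k hk2 ∈ closure (stratum K k (betti (It k t0))) := by
    rw [h𝒮]
    simp only [Set.mem_iUnion]
    refine ⟨β', hβ', fun p s => ?_⟩
    rw [← h1 p s]
    exact (betti_It_zero_eq hk p s).symm
  rw [mem_closure_iff] at hJ
  obtain ⟨I, hI1, hI2⟩ := hJ (principalOpen (BJ k) (PJ K k))
    (TopologicalSpace.isOpen_generateFrom_of_mem ⟨_, _, rfl⟩) (gJ_mem hk)
  refine not_mem_open hk I ?_ ?_ hI1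
  · rw [hI2 3 1]; exact betti_It_one hk ht0'
  · rw [hI2 3 k]; exact betti_It_k hk t0

end Pool.Agent.R832.Frontier
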