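import Pool.Agent.R832.Frontier.Betti

set_option autoImplicit false

open MvPolynomial

namespace Pool.Agent.R832.Frontier

variable {K : Type*} [Field K]

open Classical in
/-- the standard monomials of `J`. -/
noncomputable def BJ (k : ℕ) : Finset (Fin 3 →₀ ℕ) :=
  insert (e 1 0 0) (((Finset.range (k + 1)).image fun b => e 0 b 0) ∪
    (((Finset.range k).image fun b => e 0 b 1) ∪ ((Finset.range k).image fun b => e 0 b 2)))

lemma mem_BJ {k : ℕ} {m : Fin 3 →₀ ℕ} : m ∈ BJ k ↔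
    m = e 1 0 0 ∨ (∃ b ≤ k, m = e 0 b 0) ∨ (∃ b < k, m = e 0 b 1) ∨ (∃ b < k, m = e 0 b 2) := by
  simp only [BJ, Finset.mem_insert, Finset.mem_union, Finset.mem_image, Finset.mem_range,
    Nat.lt_succ_iff, eq_comm]

lemma mem_J_iff {k : ℕ} {f : MvPolynomial (Fin 3) K} :
    f ∈ J K k ↔ ∀ m ∈ BJ k, coeff m f = 0 := by
  rw [J, mem_Fam]
  constructor
  · rintro ⟨h0, h1, h2, h3⟩ m hm
    rw [mem_BJ] at hm
    rcases hm with rfl | ⟨b, hb, rfl⟩ | ⟨b, hb, rfl⟩ | ⟨b, hb, rfl⟩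
    · exact h3
    · exact h0 b hb
    · exact h1 b hb
    · have := h2 b hb
      rwa [zero_mul, add_zero] at this
  · intro h
    refine ⟨fun b hb => ?_, fun b hb => ?_, fun b hb => ?_, ?_⟩
    · exact h _ (mem_BJ.mpr (Or.inr (Or.inl ⟨b, hb, rfl⟩)))
    · exact h _ (mem_BJ.mpr (Or.inr (Or.inr (Or.inl ⟨b, hb, rfl⟩))))
    · rw [zero_mul, add_zero]
      exact h _ (mem_BJ.mpr (Or.inr (Or.inr (Or.inr ⟨b, hb, rfl⟩))))
    · exact h _ (mem_BJ.mpr (Or.inl rfl))

open Classical in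
lemma coeff_sum_mono (B : Finset (Fin 3 →₀ ℕ)) (c : (Fin 3 →₀ ℕ) → K) (m : Fin 3 →₀ ℕ) :
    coeff m (∑ β ∈ B, c β • monomial β (1 : K)) = if m ∈ B then c m else 0 := by
  rw [coeff_sum]
  simp only [coeff_smul, coeff_monomial, smul_eq_mul, mul_ite, mul_one, mul_zero]
  rw [Finset.sum_ite_eq' B m c]

lemma sum_coe_mono {k : ℕ} (I : GT K k) (B : Finset (Fin 3 →₀ ℕ))
    (c : (Fin 3 →₀ ℕ) → K) :
    ∑ b : B, c b.1 • cls I b.1 =
      Ideal.Quotient.mk I.1 (∑ β ∈ B, c β • monomial β (1 : K)) := by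
  rw [map_sum, ← Finset.sum_coe_sort B]
  rfl

lemma sum_mono {k : ℕ} (I : GT K k) (B : Finset (Fin 3 →₀ ℕ))
    (c : (Fin 3 →₀ ℕ) → K) :
    ∑ β ∈ B, c β • cls I β =
      Ideal.Quotient.mk I.1 (∑ β ∈ B, c β • monomial β (1 : K)) := by
  rw [map_sum]
  rfl

lemma cls_eq_iff {k : ℕ} (I : GT K k) (B : Finset (Fin 3 →₀ ℕ)) (α : Fin 3 →₀ ℕ)
    (c : (Fin 3 →₀ ℕ) → K) : cls I α = ∑ β ∈ B, c β • cls I β ↔
      monomial α (1 : K) - ∑ β ∈ B, c β • monomial β (1 : K) ∈ I.1 := by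
  rw [sum_mono, cls, Ideal.Quotient.eq]

lemma isCoord_iff {k : ℕ} {B : Finset (Fin 3 →₀ ℕ)} {I : GT K k}
    {c : (Fin 3 →₀ ℕ) → (Fin 3 →₀ ℕ) → K} : IsCoord B I c ↔
      (∀ α, monomial α (1 : K) - ∑ β ∈ B, c α β • monomial β (1 : K) ∈ I.1) ∧
        ∀ α β, β ∉ B → c α β = 0 := by
  simp only [IsCoord, cls_eq_iff]

/-- In a chart, combinations of the basis monomials in `I` vanish. -/
lemma chart_indep {k : ℕ} {B : Finset (Fin 3 →₀ ℕ)} {I : GT K k} (h : InChart B I)
    (c : (Fin 3 →₀ ℕ) → K) (hc : ∑ β ∈ B, c β • monomial β (1 : K) ∈ I.1) :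
    ∀ β ∈ B, c β = 0 := by
  have h1 := Fintype.linearIndependent_iff.mp h.1 (fun b => c b.1) (by
    rw [sum_coe_mono, Ideal.Quotient.eq_zero_iff_mem]; exact hc)
  intro β hβ
  exact h1 ⟨β, hβ⟩

/-- In a chart, every polynomial is congruent to a combination of the basis monomials. -/
lemma chart_span {k : ℕ} {B : Finset (Fin 3 →₀ ℕ)} {I : GT K k} (h : InChart B I)
    (f : MvPolynomial (Fin 3) K) :
    ∃ c : (Fin 3 →₀ ℕ) → K, (∀ β, β ∉ B → c β = 0) ∧
      f - ∑ β ∈ B, c β • monomial β (1 : K) ∈ I.1 := by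
  classical
  have h1 : Ideal.Quotient.mk I.1 f ∈
      Submodule.span K (Set.range fun b : B => cls I b.1) := by
    rw [h.2]; trivial
  rw [Submodule.mem_span_range_iff_exists_fun] at h1
  obtain ⟨c, hc⟩ := h1
  refine ⟨fun β => if hβ : β ∈ B then c ⟨β, hβ⟩ else 0, fun β hβ => dif_neg hβ, ?_⟩
  rw [← Ideal.Quotient.eq_zero_iff_mem, map_sub, ← sum_coe_mono, ← hc, sub_eq_zero]
  refine Finset.sum_congr rfl (fun b _ => ?_)
  rw [dif_pos b.2]

lemma exists_coord {k : ℕ} {B : Finset (Fin 3 →₀ ℕ)} {I : GT K k} (h : InChart B I) :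
    ∃ c, IsCoord B I c := by
  choose c hc0 hc using fun α => chart_span h (monomial α (1 : K))
  exact ⟨c, isCoord_iff.mpr ⟨hc, hc0⟩⟩

open Classical in
lemma homog_sum_mono (B : Finset (Fin 3 →₀ ℕ)) (c : (Fin 3 →₀ ℕ) → K) (i : ℕ) :
    homogeneousComponent i (∑ β ∈ B, c β • monomial β (1 : K)) =
      ∑ β ∈ B.filter (fun β => β.degree = i), c β • monomial β (1 : K) := by
  ext m
  rw [coeff_homogeneousComponent, coeff_sum_mono, coeff_sum_mono]
  simp only [Finset.mem_filter]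
  by_cases h : m.degree = i <;> simp [h]

lemma homog_mem {k : ℕ} (I : GT K k) {f g : MvPolynomial (Fin 3) K} {i : ℕ}
    (hf : f ∈ homogeneousSubmodule (Fin 3) K i) (h : f - g ∈ I.1) :
    f - homogeneousComponent i g ∈ I.1 := by
  have := I.2.1 _ h i
  rwa [map_sub, homogeneousComponent_of_mem hf, if_pos rfl] at this

/-- the entries of the matrix of products -/
noncomputable def PMat (K : Type*) [Field K] (k : ℕ) :
    Matrix (Fin 3) (Fin 3) (MvPolynomial ((Fin 3 →₀ ℕ) × (Fin 3 →₀ ℕ)) K) :=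
  fun p q => X (e 0 (k + 1 - (p.1 + q.1)) (p.1 + q.1), e 0 (k - 1) 2)

/-- the polynomial defining the open set separating `J`. -/
noncomputable def PJ (K : Type*) [Field K] (k : ℕ) :
    MvPolynomial ((Fin 3 →₀ ℕ) × (Fin 3 →₀ ℕ)) K := (PMat K k).det

lemma eval_PJ (k : ℕ) (c : (Fin 3 →₀ ℕ) → (Fin 3 →₀ ℕ) → K) :
    eval (fun p => c p.1 p.2) (PJ K k) =
      Matrix.det (Matrix.of fun p q : Fin 3 =>
        c (e 0 (k + 1 - (p.1 + q.1)) (p.1 + q.1)) (e 0 (k - 1) 2)) := by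
  rw [PJ, RingHom.map_det]
  congr 1
  ext p q
  simp [PMat]

lemma gJ_mem {k : ℕ} (hk : 3 ≤ k) : gJ K k (by omega) ∈ principalOpen (BJ k) (PJ K k) := by
  classical
  refine ⟨⟨?_, ?_⟩, ?_⟩
  · rw [Fintype.linearIndependent_iff]
    intro g hg b
    have h1 : ∑ b : BJ k, g b • cls (gJ K k (by omega)) b.1 =
      Ideal.Quotient.mk (gJ K k (by omega)).1 (∑ β ∈ BJ k,
        (fun β => if hβ : β ∈ BJ k then g ⟨β, hβ⟩ else 0) β • monomial β (1 : K)) := by
      rw [← sum_coe_mono]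
      refine Finset.sum_congr rfl (fun b _ => ?_)
      show _ = (if hβ : b.1 ∈ BJ k then g ⟨b.1, hβ⟩ else 0) • _
      rw [dif_pos b.2]
    rw [h1, Ideal.Quotient.eq_zero_iff_mem] at hg
    have h2 := (mem_J_iff (K := K)).mp hg b.1 b.2
    rw [coeff_sum_mono, if_pos b.2, dif_pos b.2] at h2
    exact h2
  · rw [eq_top_iff]
    rintro x -
    obtain ⟨f, rfl⟩ := Ideal.Quotient.mk_surjective x
    rw [Submodule.mem_span_range_iff_exists_fun]
    refine ⟨fun b => coeff b.1 f, ?_⟩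
    rw [sum_coe_mono _ _ (fun β => coeff β f), Ideal.Quotient.eq]
    refine (mem_J_iff (K := K)).mpr (fun m hm => ?_)
    rw [coeff_sub, coeff_sum_mono, if_pos hm, sub_self]
  · intro c hc
    have hδ : ∀ α, ∀ β ∈ BJ k, c α β = if α = β then 1 else 0 := by
      intro α β hβ
      have h2 := (mem_J_iff (K := K)).mp ((isCoord_iff.mp hc).1 α) β hβ
      rw [coeff_sub, coeff_sum_mono, if_pos hβ, coeff_monomial, sub_eq_zero] at h2
      exact h2.symm
    have htop : e 0 (k - 1) 2 ∈ BJ k :=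
      mem_BJ.mpr (Or.inr (Or.inr (Or.inr ⟨k - 1, by omega, rfl⟩)))
    rw [eval_PJ, Matrix.det_fin_three]
    simp only [Matrix.of_apply, hδ _ _ htop, e_inj]
    have h1 : k + 1 - 2 = k - 1 := by omega
    simp [h1]

/-- A degenerate pairing `A_1 × A_k → A_{k+1}`: if `A_k` contains a nonzero socle element then some
nonzero linear form kills `A_k`. -/
lemma exists_linear {k : ℕ} (hk : 1 ≤ k) (I : GT K k) (h : betti I.1 3 k ≠ 0) :
    ∃ g : Fin 3 → K, g ≠ 0 ∧ ∀ f ∈ homogeneousSubmodule (Fin 3) K k,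
      (∑ a, g a • (X a : MvPolynomial (Fin 3) K)) * f ∈ I.1 := by
  have hdk : Module.finrank K (Piece I.1 k) = 3 := by
    rw [I.2.2 k, T, if_neg (by omega), if_pos le_rfl]
  have hdk1 : Module.finrank K (Piece I.1 (k + 1)) = 1 := by
    rw [I.2.2 (k + 1), T, if_neg (by omega), if_neg (by omega), if_pos rfl]
  have hd3 : Module.finrank K (Fin 3 → Piece I.1 (k + 1)) = 3 := by rw [finrank_pi3, hdk1]
  have hns : LinearMap.range (grad I.1 k) < ⊤ := by
    rw [lt_top_iff_ne_top]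
    intro htop
    apply h
    rw [betti_three]
    have h1 := LinearMap.finrank_range_add_finrank_ker (grad I.1 k)
    rw [htop, finrank_top, hd3, hdk] at h1
    rw [nul]; omega
  obtain ⟨F, hF, hle⟩ := Submodule.exists_le_ker_of_lt_top _ hns
  obtain ⟨E⟩ : Nonempty (Piece I.1 (k + 1) ≃ₗ[K] K) :=
    ⟨LinearEquiv.ofFinrankEq _ _ (by rw [hdk1, Module.finrank_self])⟩
  have hFw : ∀ w : Fin 3 → Piece I.1 (k + 1),
      F w = ∑ a, E (w a) * F (Pi.single a (E.symm 1)) := by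
    intro w
    have h1 : w = ∑ a, E (w a) • (Pi.single a (E.symm 1) : Fin 3 → Piece I.1 (k + 1)) := by
      ext b
      rw [Finset.sum_apply, Finset.sum_eq_single b]
      · rw [Pi.smul_apply, Pi.single_eq_same, ← map_smul, smul_eq_mul, mul_one,
          LinearEquiv.symm_apply_apply]
      · intro a _ hab
        rw [Pi.smul_apply, Pi.single_eq_of_ne (Ne.symm hab), smul_zero]
      · intro hb; exact absurd (Finset.mem_univ b) hb
    conv_lhs => rw [h1]
    rw [map_sum]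
    refine Finset.sum_congr rfl (fun a _ => ?_)
    rw [map_smul, smul_eq_mul]
  refine ⟨fun a => F (Pi.single a (E.symm 1)), ?_, fun f hf => ?_⟩
  · intro h0
    apply hF
    refine LinearMap.ext (fun w => ?_)
    rw [hFw w]
    simp only [LinearMap.zero_apply]
    refine Finset.sum_eq_zero (fun a _ => ?_)
    rw [congrFun h0 a, Pi.zero_apply, mul_zero]
  · have h1 : F (grad I.1 k (Submodule.Quotient.mk ⟨f, hf⟩)) = 0 := hle ⟨_, rfl⟩
    rw [hFw] at h1
    have h2 : E (∑ a, F (Pi.single a (E.symm 1)) •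
        mulX I.1 a k (Submodule.Quotient.mk ⟨f, hf⟩)) = 0 := by
      rw [map_sum, ← h1]
      refine Finset.sum_congr rfl (fun a _ => ?_)
      rw [map_smul, smul_eq_mul, mul_comm]
      rfl
    rw [LinearEquiv.map_eq_zero_iff] at h2
    have h3 : ∑ a, F (Pi.single a (E.symm 1)) • mulX I.1 a k (Submodule.Quotient.mk ⟨f, hf⟩) =
        Submodule.Quotient.mk (∑ a, F (Pi.single a (E.symm 1)) • hmul a k ⟨f, hf⟩) := by
      simp only [mulX_mk]
      rw [Fin.sum_univ_three, Fin.sum_univ_three]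
      rfl
    rw [h3, Submodule.Quotient.mk_eq_zero] at h2
    have h4 : (∑ a, F (Pi.single a (E.symm 1)) • (X a : MvPolynomial (Fin 3) K)) * f =
        (homogeneousSubmodule (Fin 3) K (k + 1)).subtype
          (∑ a, F (Pi.single a (E.symm 1)) • hmul a k ⟨f, hf⟩) := by
      rw [map_sum, Finset.sum_mul]
      refine Finset.sum_congr rfl (fun a _ => ?_)
      rw [map_smul, smul_mul_assoc]
      rfl
    rw [h4]
    exact h2

lemma top_filter {k : ℕ} (hk : 3 ≤ k) :
    (BJ k).filter (fun β => β.degree = k + 1) = {e 0 (k - 1) 2} := by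
  ext m
  rw [Finset.mem_filter, mem_BJ, Finset.mem_singleton]
  constructor
  · rintro ⟨rfl | ⟨b, hb, rfl⟩ | ⟨b, hb, rfl⟩ | ⟨b, hb, rfl⟩, h⟩ <;> rw [e_degree] at h
    · omega
    · omega
    · omega
    · rw [e_inj]; omega
  · rintro rfl
    refine ⟨Or.inr (Or.inr (Or.inr ⟨k - 1, by omega, rfl⟩)), ?_⟩
    rw [e_degree]; omega

open Classical in
lemma two_filter {k : ℕ} (hk : 3 ≤ k) :
    (BJ k).filter (fun β => β.degree = 2) = {e 0 2 0, e 0 1 1, e 0 0 2} := by
  ext m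
  rw [Finset.mem_filter, mem_BJ, Finset.mem_insert, Finset.mem_insert, Finset.mem_singleton]
  constructor
  · rintro ⟨rfl | ⟨b, hb, rfl⟩ | ⟨b, hb, rfl⟩ | ⟨b, hb, rfl⟩, h⟩ <;> rw [e_degree] at h
    · omega
    · left; rw [e_inj]; omega
    · right; left; rw [e_inj]; omega
    · right; right; rw [e_inj]; omega
  · rintro (rfl | rfl | rfl)
    · exact ⟨Or.inr (Or.inl ⟨2, by omega, rfl⟩), by rw [e_degree]⟩
    · exact ⟨Or.inr (Or.inr (Or.inl ⟨1, by omega, rfl⟩)), by rw [e_degree]⟩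
    · exact ⟨Or.inr (Or.inr (Or.inr ⟨0, by omega, rfl⟩)), by rw [e_degree]⟩

lemma X_eq_mono (a : Fin 3) : (X a : MvPolynomial (Fin 3) K) =
    monomial (![e 1 0 0, e 0 1 0, e 0 0 1] a) 1 := by
  fin_cases a
  · show X 0 = monomial (e 1 0 0) 1
    rw [← single_zero_one]; rfl
  · show X 1 = monomial (e 0 1 0) 1
    rw [← single_one_one]; rfl
  · show X 2 = monomial (e 0 0 1) 1
    rw [← single_two_one]; rfl

lemma smul_mono_mem {k : ℕ} (I : GT K k) {m : Fin 3 →₀ ℕ} {r : K}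
    (h : r • monomial m (1 : K) ∈ I.1) (h0 : monomial m (1 : K) ∉ I.1) : r = 0 := by
  by_contra hr
  apply h0
  have := (I.1).mul_mem_left (C r⁻¹) h
  rwa [← smul_eq_C_mul, smul_smul, inv_mul_cancel₀ hr, one_smul] at this

/-- Points of the stratum of `I_t`, `t ≠ 0`, are not in the open set of `J`. -/
lemma not_mem_open {k : ℕ} (hk : 3 ≤ k) (I : GT K k) (h1 : betti I.1 3 1 = 0)
    (hk' : betti I.1 3 k ≠ 0) : I ∉ principalOpen (BJ k) (PJ K k) := by
  classical
  rintro ⟨hch, hP⟩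
  obtain ⟨g, hg, hgf⟩ := exists_linear (by omega) I hk'
  set ℓ : MvPolynomial (Fin 3) K := ∑ a, g a • (X a : MvPolynomial (Fin 3) K) with hℓ
  have hℓ1 : ℓ ∈ homogeneousSubmodule (Fin 3) K 1 := by
    rw [hℓ]
    refine Submodule.sum_mem _ (fun a _ => Submodule.smul_mem _ _ ?_)
    rw [mem_homogeneousSubmodule]
    exact isHomogeneous_X K a
  have hℓI : ℓ ∉ I.1 := by
    intro hmem
    apply hg
    have hsum : ∑ β ∈ BJ k, (fun β => coeff β ℓ) β • monomial β (1 : K) = ℓ := by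
      ext m
      rw [coeff_sum_mono]
      split_ifs with hm
      · rfl
      · symm
        rw [hℓ, Fin.sum_univ_three, X_eq_mono, X_eq_mono, X_eq_mono]
        simp only [coeff_add, coeff_smul, coeff_monomial, smul_eq_mul]
        rw [mem_BJ] at hm
        push Not at hm
        have a1 := hm.1
        have a2 := hm.2.1 1 (by omega)
        have a3 := hm.2.2.1 0 (by omega)
        simp [a1.symm, a2.symm, a3.symm]
    have hind := chart_indep hch (fun β => coeff β ℓ) (by rw [hsum]; exact hmem)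
    ext a
    have hc : coeff (![e 1 0 0, e 0 1 0, e 0 0 1] a) ℓ = g a := by
      rw [hℓ, Fin.sum_univ_three, X_eq_mono, X_eq_mono, X_eq_mono]
      simp only [coeff_add, coeff_smul, coeff_monomial, smul_eq_mul]
      fin_cases a <;> simp [e_inj]
    rw [← hc]
    apply hind
    rw [mem_BJ]
    fin_cases a
    · exact Or.inl rfl
    · exact Or.inr (Or.inl ⟨1, by omega, rfl⟩)
    · exact Or.inr (Or.inr (Or.inl ⟨0, by omega, rfl⟩))
  obtain ⟨a, ha⟩ : ∃ a, X a * ℓ ∉ I.1 := by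
    by_contra hcon
    push Not at hcon
    exact hℓI ((betti_three_eq_zero_iff _ _).mp h1 ℓ hℓ1 hcon)
  set w := X a * ℓ with hw
  have hw2 : w ∈ homogeneousSubmodule (Fin 3) K 2 := X_mul_mem hℓ1
  have hwk : ∀ f ∈ homogeneousSubmodule (Fin 3) K (k - 1), w * f ∈ I.1 := by
    intro f hf
    have := hgf (X a * f) (by
      have := X_mul_mem (a := a) hf
      rwa [show k - 1 + 1 = k by omega] at this)
    rwa [hw, mul_comm (X a) ℓ, mul_assoc]
  -- coordinates of `w`
  obtain ⟨d, -, hd⟩ := chart_span hch w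
  have hd2 := homog_mem I hw2 hd
  rw [homog_sum_mono, two_filter hk] at hd2
  have hsum3 : ∑ β ∈ ({e 0 2 0, e 0 1 1, e 0 0 2} : Finset (Fin 3 →₀ ℕ)),
      d β • monomial β (1 : K) = ∑ p : Fin 3, d (e 0 (2 - p.1) p.1) •
        monomial (e 0 (2 - p.1) p.1) (1 : K) := by
    rw [Finset.sum_insert (by simp [e_inj]), Finset.sum_insert (by simp [e_inj]),
      Finset.sum_singleton, Fin.sum_univ_three, add_assoc]
    rfl
  rw [hsum3] at hd2
  obtain ⟨c, hc⟩ := exists_coord hch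
  have hPc := hP c hc
  apply hPc
  rw [eval_PJ]
  refine Matrix.exists_vecMul_eq_zero_iff.mp ⟨fun p => d (e 0 (2 - p.1) p.1), ?_, ?_⟩
  · intro h0
    apply ha
    rw [Finset.sum_eq_zero, sub_zero] at hd2
    · exact hd2
    · intro p _
      rw [congrFun h0 p, Pi.zero_apply, zero_smul]
  · have htopI : monomial (e 0 (k - 1) 2) (1 : K) ∉ I.1 := by
      intro hmem
      have hB : e 0 (k - 1) 2 ∈ BJ k :=
        mem_BJ.mpr (Or.inr (Or.inr (Or.inr ⟨k - 1, by omega, rfl⟩)))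
      have := chart_indep hch (fun β => if β = e 0 (k - 1) 2 then 1 else 0) (by
        rw [Finset.sum_eq_single (e 0 (k - 1) 2)]
        · rw [if_pos rfl, one_smul]; exact hmem
        · intro b _ hb
          rw [if_neg hb, zero_smul]
        · intro hb; exact absurd hB hb) _ hB
      simp at this
    have hctop : ∀ α : Fin 3 →₀ ℕ, α.degree = k + 1 →
        monomial α (1 : K) - c α (e 0 (k - 1) 2) • monomial (e 0 (k - 1) 2) (1 : K) ∈ I.1 := by
      intro α hα
      have h2 := homog_mem I (i := k + 1) (by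
        rw [mem_homogeneousSubmodule]
        exact isHomogeneous_monomial 1 hα) ((isCoord_iff.mp hc).1 α)
      rwa [homog_sum_mono, top_filter hk, Finset.sum_singleton] at h2
    ext q
    rw [Pi.zero_apply]
    simp only [Matrix.vecMul, dotProduct, Matrix.of_apply]
    have hq2 : q.1 ≤ 2 := by omega
    have hmq := mono_mem (K := K) 0 (k - 1 - q.1) q.1 (i := k - 1) (by omega)
    have e1 := hwk _ hmq
    have e2 := (I.1).mul_mem_right (monomial (e 0 (k - 1 - q.1) q.1) (1 : K)) hd2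
    rw [sub_mul] at e2
    have e3 := (I.1).sub_mem e1 e2
    rw [sub_sub_cancel, Finset.sum_mul] at e3
    have e4 : ∑ p : Fin 3, d (e 0 (2 - p.1) p.1) • monomial (e 0 (2 - p.1) p.1) (1 : K) *
        monomial (e 0 (k - 1 - q.1) q.1) (1 : K) -
        (∑ p : Fin 3, d (e 0 (2 - p.1) p.1) *
          c (e 0 (k + 1 - (p.1 + q.1)) (p.1 + q.1)) (e 0 (k - 1) 2)) •
            monomial (e 0 (k - 1) 2) (1 : K) ∈ I.1 := by
      rw [Finset.sum_smul, ← Finset.sum_sub_distrib]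
      refine (I.1).sum_mem (fun p _ => ?_)
      have hp2 : p.1 ≤ 2 := by omega
      rw [smul_mul_assoc, monomial_mul, e_add, one_mul, ← smul_smul, ← smul_sub,
        show 2 - p.1 + (k - 1 - q.1) = k + 1 - (p.1 + q.1) by omega, add_zero, smul_eq_C_mul]
      exact (I.1).mul_mem_left _ (hctop _ (by rw [e_degree]; omega))
    have e5 := (I.1).sub_mem e3 e4
    rw [sub_sub_cancel] at e5
    exact smul_mono_mem I e5 htopI

end Pool.Agent.R832.Frontier
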